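import Pool.Agent.Helper63.PC.Bridge
import Pool.Agent.Helper11.DC.Device

/-!
# Classes of polynomials whose limits contain the permanent (MP_381749_lc)

The argument of `CubicDC` for an arbitrary class of polynomials of bounded degree closed under
affine substitutions: if the permanent of size `n ≥ 702 M ^ 3` (`M ^ 3 = 2 d`) is a coefficientwise
limit of elements of the class, then the class contains a polynomial in `(2 d - 1) (2 d) + 1`
variables with at least `(d !) ^ (2 (2 d - 1))` nondegenerate critical points.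
-/

set_option autoImplicit false

namespace Pool.CD

open Finset MvPolynomial Pool.Agent.Helper24.SQ Pool.Agent.Helper63.N3 Pool.Agent.Helper63.PC
  Helper16.N3

/-- A class of polynomials of bounded degree, closed under affine substitutions. -/
structure Cls where
  mem : ∀ {σ : Type}, MvPolynomial σ ℂ → Prop
  deg : ℕ
  subst : ∀ {σ τ : Type} (P : MvPolynomial σ ℂ) (f : σ → MvPolynomial τ ℂ), mem P →
    (∀ s, (f s).totalDegree ≤ 1) → mem (aeval f P)
  le : ∀ {σ : Type} (P : MvPolynomial σ ℂ), mem P → P.totalDegree ≤ deg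

/-- The permanent is a (coefficientwise) limit of elements of the class. -/
def BR (C : Cls) (n : ℕ) : Prop :=
  ∀ ε : ℝ, 0 < ε → ∃ P : MvPolynomial (Fin n × Fin n) ℂ, C.mem P ∧
    ∀ s, ‖P.coeff s - (permPoly n).coeff s‖ < ε

variable {Cl : Cls}

theorem BR.aeval {n : ℕ} (h : BR Cl n) {τ : Type}
    (f : Fin n × Fin n → MvPolynomial τ ℂ) (hf : ∀ s, (f s).totalDegree ≤ 1) (ε : ℝ)
    (hε : 0 < ε) : ∃ Q : MvPolynomial τ ℂ, Cl.mem Q ∧
      ∀ s, ‖Q.coeff s - (MvPolynomial.aeval f (permPoly n)).coeff s‖ < ε := by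
  obtain ⟨K, hK, H⟩ := aeval_bound (max Cl.deg n) f
  obtain ⟨P, hP, hPc⟩ := h (ε / (2 * K)) (by positivity)
  refine ⟨MvPolynomial.aeval f P, Cl.subst P f hP hf, fun s => ?_⟩
  have h1 := H (P - permPoly n) ?_ (ε / (2 * K)) (by positivity) ?_ s
  · rw [map_sub, MvPolynomial.coeff_sub] at h1
    refine h1.trans_lt ?_
    have : K * (ε / (2 * K)) = ε / 2 := by field_simp
    rw [this]
    linarith
  · refine (MvPolynomial.totalDegree_sub _ _).trans ?_
    exact max_le_max (Cl.le P hP) (permPoly_totalDegree_le n)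
  · intro s
    rw [MvPolynomial.coeff_sub]
    exact (hPc s).le

theorem BR.mono_left {n n' : ℕ} (h : BR Cl n) (hn : n' ≤ n) : BR Cl n' := by
  obtain ⟨f, hf, hf'⟩ := exists_proj_perm hn
  intro ε hε
  obtain ⟨Q, hQ, hQc⟩ := h.aeval f hf ε hε
  rw [hf'] at hQc
  exact ⟨Q, hQ, hQc⟩

theorem exists_crit_near' {n : ℕ} {ι : Type} [Fintype ι] (h : BR Cl n)
    (f : Fin n × Fin n → MvPolynomial (Option ι) ℂ) (hf : ∀ q, (f q).totalDegree ≤ 1)
    (Z : Finset (Option ι → ℂ)) (hZ : ∀ z ∈ Z, CritPt (MvPolynomial.aeval f (permPoly n)) z) :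
    ∃ (P : MvPolynomial (Option ι) ℂ) (Z' : Finset (Option ι → ℂ)), Cl.mem P ∧
      Z'.card = Z.card ∧ ∀ z ∈ Z', CritPt P z := by
  classical
  set D := max Cl.deg (permPoly n).totalDegree with hD
  -- the monomials of degree at most `D`
  have hfin : {s : Fin n × Fin n →₀ ℕ | (s.sum fun _ e => e) ≤ D}.Finite := by
    have : {s : Fin n × Fin n →₀ ℕ | (s.sum fun _ e => e) ≤ D} ⊆
        ↑(Finset.Iic (Finsupp.equivFunOnFinite.symm fun _ : Fin n × Fin n => D)) := by
      intro s hs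
      rw [Finset.mem_coe, Finset.mem_Iic]
      intro q
      show s q ≤ D
      refine le_trans ?_ hs
      by_cases hq : q ∈ s.support
      · exact Finset.single_le_sum (f := fun q => s q) (fun _ _ => Nat.zero_le _) hq
      · rw [Finsupp.notMem_support_iff.1 hq]; exact Nat.zero_le _
    exact Set.Finite.subset (Finset.finite_toSet _) this
  set κ : Finset (Fin n × Fin n →₀ ℕ) := hfin.toFinset with hκ
  obtain ⟨ε, hε, hpers⟩ := crit_persist (MvPolynomial.aeval f (permPoly n))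
    (fun k : κ => MvPolynomial.aeval f (monomial (k : Fin n × Fin n →₀ ℕ) (1 : ℂ))) Z hZ
  obtain ⟨P, hP, hPc⟩ := h ε hε
  obtain ⟨Z', hZ', hcrit⟩ := hpers (fun k => P.coeff k - (permPoly n).coeff k) fun k => hPc _
  refine ⟨MvPolynomial.aeval f P, Z', Cl.subst P f hP hf, hZ', fun z hz => ?_⟩
  have hexp : ∀ Q : MvPolynomial (Fin n × Fin n) ℂ, Q.totalDegree ≤ D →
      Q = ∑ k : κ, Q.coeff k • monomial (k : Fin n × Fin n →₀ ℕ) (1 : ℂ) := by
    intro Q hQ
    rw [Finset.sum_coe_sort κ (fun k => Q.coeff k • monomial k (1 : ℂ))]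
    conv_lhs => rw [Q.as_sum]
    rw [Finset.sum_subset (s₂ := κ)]
    · refine Finset.sum_congr rfl fun k _ => ?_
      rw [smul_monomial, smul_eq_mul, mul_one]
    · intro k hk
      rw [hκ, Set.Finite.mem_toFinset]
      exact (le_totalDegree hk).trans hQ
    · intro k _ hk
      rw [notMem_support_iff.1 hk, monomial_zero]
  have h1 : MvPolynomial.aeval f P = MvPolynomial.aeval f (permPoly n) +
      ∑ k : κ, (P.coeff k - (permPoly n).coeff k) •
      MvPolynomial.aeval f (monomial (k : Fin n × Fin n →₀ ℕ) (1 : ℂ)) := by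
    have hPd := hexp P ((Cl.le P hP).trans (le_max_left _ _))
    have hpd := hexp (permPoly n) (le_max_right _ _)
    have e : P = permPoly n + ∑ k : κ, (P.coeff k - (permPoly n).coeff k) •
        monomial (k : Fin n × Fin n →₀ ℕ) (1 : ℂ) := by
      simp only [sub_smul]
      rw [Finset.sum_sub_distrib, ← hPd, ← hpd]
      ring
    conv_lhs => rw [e]
    rw [map_add, map_sum]
    simp only [map_smul]
  rw [h1]
  exact hcrit z hz

section

variable {R Λ Cc : Type} [Fintype R] [Fintype Λ] [DecidableEq R] [DecidableEq Λ]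

theorem limit' {M s n : ℕ} (co : R → Λ → Cc) (hco : ∀ k, Function.Injective fun r => co r k)
    (hs : 1 ≤ s) (hG : GoodProj M s co) (hn : M ≤ n) (h : BR Cl n) {ι : Type} [Fintype ι]
    (V : R × Λ → MvPolynomial (Option ι) ℂ) (hV : ∀ q, (V q).totalDegree ≤ 1)
    (Z : Finset (Option ι → ℂ))
    (hZ : ∀ z ∈ Z, CritPt (∑ k : Λ, ∑ T ∈ powersetCard s (univ : Finset R), ∏ x ∈ T, V (x, k)) z) :
    ∃ (P : MvPolynomial (Option ι) ℂ) (Z' : Finset (Option ι → ℂ)),
      Cl.mem P ∧ Z'.card = Z.card ∧ ∀ z ∈ Z', CritPt P z := by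
  classical
  let κ : Type := {S // S ∈ match' co s}
  obtain ⟨ε, hε, H⟩ := crit_persist
    (∑ k : Λ, ∑ T ∈ powersetCard s (univ : Finset R), ∏ x ∈ T, V (x, k))
    (fun q : κ => ∏ q ∈ q.1, V q) Z hZ
  obtain ⟨e, c, w, sc, hc, hE, hw1, hw2⟩ := hG ε hε
  obtain ⟨Z₁, hZ₁, hcrit₁⟩ := H (fun q => if Const q.1 then 0 else w q.1 * ∏ q ∈ q.1, sc q) (by
      intro q
      split_ifs with h0
      · simpa using hε
      · exact hw2 q.1 q.2 h0)
  set f : Fin M × Fin M → MvPolynomial (Option ι) ℂ := fun q =>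
    (e q.1 q.2).elim (algebraMap ℂ _) (fun q => C (sc q) * V q) with hf
  have hfd : ∀ q, (f q).totalDegree ≤ 1 := by
    intro q
    simp only [hf]
    rcases e q.1 q.2 with v | q'
    · simp only [Sum.elim_inl, algebraMap_eq, totalDegree_C, zero_le]
    · simp only [Sum.elim_inr]
      refine (totalDegree_mul _ _).trans ?_
      rw [totalDegree_C, zero_add]
      exact hV _
  have hF : MvPolynomial.aeval f (permPoly M) = C c *
      (∑ k : Λ, ∑ T ∈ powersetCard s (univ : Finset R), ∏ x ∈ T, V (x, k) + ∑ q : κ,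
      (if Const q.1 then 0 else w q.1 * ∏ q ∈ q.1, sc q) • ∏ q ∈ q.1, V q) := by
    rw [aeval_permPoly]
    refine (hE (MvPolynomial (Option ι) ℂ) (fun q => C (sc q) * V q)).trans ?_
    rw [algebraMap_eq]
    congr 1
    rw [Finset.sum_coe_sort (match' co s) (fun S =>
      (if Const S then 0 else w S * ∏ q ∈ S, sc q) • ∏ q ∈ S, V q)]
    rw [sum_const co hco s hs, ← sum_add_distrib]
    refine sum_congr rfl fun S hS => ?_
    rw [prod_mul_distrib, ← map_prod C, ← mul_assoc, ← C_mul]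
    split_ifs with h0
    · rw [hw1 S hS h0, C_1, one_mul, zero_smul, add_zero]
    · rw [zero_add, smul_eq_C_mul]
  obtain ⟨P, Z', hP, hZ', hcrit'⟩ := exists_crit_near' (h.mono_left hn) f hfd Z₁ (by
    intro z hz
    rw [hF]
    exact critPt_smul _ c hc z (hcrit₁ z hz))
  exact ⟨P, Z', hP, hZ'.trans hZ₁, hcrit'⟩

/-- The class contains polynomials with many nondegenerate critical points. -/
theorem exists_many {M n d : ℕ} (co : R → Λ → Cc) (hco : ∀ k, Function.Injective fun r => co r k)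
    (hd : 2 ≤ d) (hR : Fintype.card R = 2 * d) (hΛ : 1 ≤ Fintype.card Λ)
    (hG : GoodProj M (d + 1) co) (hn : M ≤ n) (h : BR Cl n) :
    ∃ (ι : Type) (_ : Fintype ι) (P : MvPolynomial (Option ι) ℂ) (Z : Finset (Option ι → ℂ)),
      Fintype.card ι = (Fintype.card Λ - 1) * (2 * d) ∧ Cl.mem P ∧
      Z.card = d.factorial ^ (2 * (Fintype.card Λ - 1)) ∧ ∀ z ∈ Z, CritPt P z := by
  classical
  obtain ⟨k₀⟩ : Nonempty Λ := Fintype.card_pos_iff.1 (by omega)
  obtain ⟨T₁, _, hT₁⟩ := exists_subset_card_eq (s := (univ : Finset R)) (n := d + 1)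
    (by rw [card_univ, hR]; omega)
  obtain ⟨x₀, hx₀⟩ : T₁.Nonempty := card_pos.1 (by omega)
  obtain ⟨Z, hZ, hcard⟩ := Pool.Agent.Helper40.CB.exists_crit0 (K := ℂ) (Z := {k : Λ // k ≠ k₀})
    (J := R) hR hd (by exact_mod_cast (by omega : d ≠ 0))
    (Complex.isPrimitiveRoot_exp d (by omega))
  obtain ⟨P, Z', hP, hZ', hcrit⟩ := limit' co hco (Nat.le_add_left 1 d) hG hn h
    (VV d k₀ x₀ (T₁.erase x₀)) (VV_totalDegree d k₀ x₀ (T₁.erase x₀)) Z (by
      intro z hz
      rw [sum_VV d k₀ x₀ (T₁.erase x₀) (notMem_erase _ _) (by rw [card_erase_of_mem hx₀]; omega)]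
      exact hZ z hz)
  have hcΛ : Fintype.card {k : Λ // k ≠ k₀} = Fintype.card Λ - 1 := by
    rw [Fintype.card_subtype_compl, Fintype.card_subtype_eq]
  refine ⟨{k : Λ // k ≠ k₀} × R, inferInstance, P, Z', ?_, hP, ?_, hcrit⟩
  · rw [Fintype.card_prod, hcΛ, hR]
  · rw [hZ', hcard, hcΛ]

end

/-- **Many critical points**, for the permanent of size `n ≥ 702 M ^ 3`. -/
theorem many {M n d : ℕ} (hM : 2 ≤ M) (hMd : M ^ 3 = 2 * d) (hd : 2 ≤ d) (hn : 702 * M ^ 3 ≤ n)
    (h : BR Cl n) :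
    ∃ (ι : Type) (_ : Fintype ι) (P : MvPolynomial (Option ι) ℂ) (Z : Finset (Option ι → ℂ)),
      Fintype.card ι = (2 * d - 1) * (2 * d) ∧ Cl.mem P ∧
      Z.card = d.factorial ^ (2 * (2 * d - 1)) ∧ ∀ z ∈ Z, CritPt P z := by
  obtain ⟨P, hP, hE⟩ := Pool.Agent.Helper11.DC.device (M := M) (s := d + 1) (by omega) (by omega)
  have hc : Fintype.card (Fin 3 → Fin M) = 2 * d := by
    rw [Fintype.card_fun, Fintype.card_fin, Fintype.card_fin, hMd]
  have h1 := exists_many (Cl := Cl) (vco 3 M) (vco_inj 3 M) hd hc (by rw [hc]; omega)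
    (goodProj_of_expProj (vco 3 M) (fun k i => ((k i : Fin M) : ℕ)) (by
      intro k k' hk
      funext i
      exact Fin.ext (congrFun hk i)) (Nat.le_add_left 1 d) hE) (hP.trans hn) h
  rw [hc] at h1
  exact h1

end Pool.CD
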