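import Pool.Agent.Helper74.Bez.Count

/-!
The two-group Bezout bound for equations of bidegree `(e + 1, 1)` and `(e, 2)` (MP_381749_lc,
determinants with polynomial entries).
-/
namespace Pool.CD
open MvPolynomial Finset Bez

variable {K : Type*} [Field K] {s1 s2 : Type*} [Fintype s1] [Fintype s2] [DecidableEq s1]
  [DecidableEq s2] {ι : Type*} [Fintype ι] [DecidableEq ι]
  {t1 t2 : Type*} [Fintype t1] [Fintype t2] [DecidableEq t1] [DecidableEq t2]

theorem bez_AB [Infinite K] (e : ℕ) (f : t1 ⊕ t2 → MvPolynomial (s1 ⊕ s2) K) (p : ι → s1 ⊕ s2 → K)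
    (hp : Function.Injective p) (hf : ∀ k i, eval (p k) (f i) = 0)
    (hJ : ∀ k, Function.Surjective (jac f (p k)))
    (h1 : ∀ i, f (Sum.inl i) ∈ Wb K s1 s2 (e + 1) 1) (h2 : ∀ j, f (Sum.inr j) ∈ Wb K s1 s2 e 2)
    (A B : ℕ) :
    Fintype.card ι * ((Fintype.card t1 + A).choose (Fintype.card t1) *
      (Fintype.card t2 + B).choose (Fintype.card t2)) ≤
    (Fintype.card s1 + ((e + 1) * A + e * B + Fintype.card ι)).choose (Fintype.card s1) *
      (Fintype.card s2 + (A + 2 * B + Fintype.card ι)).choose (Fintype.card s2) := by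
  obtain ⟨g, hg1, hg2⟩ := exists_interp p hp
  obtain ⟨hfin, hrank⟩ := Wb_basis (K := K) (s1 := s1) (s2 := s2)
    ((e + 1) * A + e * B + Fintype.card ι) (A + 2 * B + Fintype.card ι)
  have := hfin
  rw [← hrank, ← card_bfin (s1 := t1) (s2 := t2)]
  refine card_le f p hf hJ g hg1 (bfin t1 t2 A B) _ ?_
  intro k a ha
  rw [mem_bfin] at ha
  obtain ⟨ha1, ha2⟩ := ha
  have hprod : ∏ i, f i ^ a i ∈ Wb K s1 s2 ((e + 1) * A + e * B) (A + 2 * B) := by
    rw [Fintype.prod_sum_type]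
    have e1 := Wb_prod (univ : Finset t1) (d1 := fun i => a (Sum.inl i) * (e + 1))
      (d2 := fun i => a (Sum.inl i) * 1) (f := fun i => f (Sum.inl i) ^ a (Sum.inl i))
      fun i _ => Wb_pow (h1 i) _
    have e2 := Wb_prod (univ : Finset t2) (d1 := fun i => a (Sum.inr i) * e)
      (d2 := fun i => a (Sum.inr i) * 2) (f := fun i => f (Sum.inr i) ^ a (Sum.inr i))
      fun i _ => Wb_pow (h2 i) _
    refine Wb_mono ?_ ?_ (Wb_mul e1 e2)
    · rw [← Finset.sum_mul, ← Finset.sum_mul]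
      have h3 : (∑ i, a (Sum.inl i)) * (e + 1) ≤ (e + 1) * A := by
        rw [mul_comm]; exact Nat.mul_le_mul_left _ ha1
      have h4 : (∑ i, a (Sum.inr i)) * e ≤ e * B := by
        rw [mul_comm]; exact Nat.mul_le_mul_left _ ha2
      omega
    · simp only [mul_one]
      rw [← Finset.sum_mul]
      omega
  exact Wb_mono (by omega) (by omega) (Wb_mul (hg2 k) hprod)

/-- the two-group Bezout bound -/
theorem bez [Infinite K] (e : ℕ) (f : t1 ⊕ t2 → MvPolynomial (s1 ⊕ s2) K) (p : ι → s1 ⊕ s2 → K)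
    (hp : Function.Injective p) (hf : ∀ k i, eval (p k) (f i) = 0)
    (hJ : ∀ k, Function.Surjective (jac f (p k)))
    (h1 : ∀ i, f (Sum.inl i) ∈ Wb K s1 s2 (e + 1) 1) (h2 : ∀ j, f (Sum.inr j) ∈ Wb K s1 s2 e 2)
    (hc : Fintype.card t1 + Fintype.card t2 = Fintype.card s1 + Fintype.card s2) (α β : ℕ) :
    Fintype.card ι * (α ^ Fintype.card t1 * β ^ Fintype.card t2) *
        ((Fintype.card s1).factorial * (Fintype.card s2).factorial) ≤
      ((Fintype.card t1).factorial * (Fintype.card t2).factorial) *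
        (((e + 1) * α + e * β) ^ Fintype.card s1 * (α + 2 * β) ^ Fintype.card s2) := by
  set S := Fintype.card ι with hS
  set n1 := Fintype.card s1 with hn1
  set n2 := Fintype.card s2 with hn2
  set q1 := Fintype.card t1 with hq1
  set q2 := Fintype.card t2 with hq2
  set γ : ℕ := (e + 1) * α + e * β with hγ
  clear_value γ
  -- the inequality for all `T`
  have hT : ∀ T : ℕ, 1 ≤ T → (S : ℝ) * ((α : ℝ) ^ q1 * (β : ℝ) ^ q2) * ((n1.factorial : ℝ) * n2.factorial) ≤
      ((q1.factorial : ℝ) * q2.factorial) *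
      (((γ : ℝ) + (n1 + S : ℕ) / T) ^ n1 * ((α : ℝ) + 2 * β + (n2 + S : ℕ) / T) ^ n2) := by
    intro T hT1
    have hTp : (0 : ℝ) < T := by exact_mod_cast hT1
    have h := bez_AB e f p hp hf hJ h1 h2 (α * T) (β * T)
    have hγT : (e + 1) * (α * T) + e * (β * T) = γ * T := by rw [hγ]; ring
    rw [hγT] at h
    have h' : (S : ℝ) * (((q1 + α * T).choose q1 : ℝ) * ((q2 + β * T).choose q2 : ℝ)) ≤
        ((n1 + (γ * T + S)).choose n1 : ℝ) * ((n2 + (α * T + 2 * (β * T) + S)).choose n2 : ℝ) := by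
      exact_mod_cast h
    have l1 : (α : ℝ) ^ q1 * (T : ℝ) ^ q1 ≤ (q1.factorial : ℝ) * ((q1 + α * T).choose q1 : ℝ) := by
      have h3 := Nat.pow_le_choose (α := ℝ) q1 (q1 + α * T)
      rw [div_le_iff₀ (by positivity), show q1 + α * T + 1 - q1 = α * T + 1 by omega] at h3
      have h4 : ((α : ℝ) * T) ^ q1 ≤ ((α * T + 1 : ℕ) : ℝ) ^ q1 := by
        gcongr
        push_cast
        linarith
      rw [← mul_pow]
      linarith
    have l2 : (β : ℝ) ^ q2 * (T : ℝ) ^ q2 ≤ (q2.factorial : ℝ) * ((q2 + β * T).choose q2 : ℝ) := by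
      have h3 := Nat.pow_le_choose (α := ℝ) q2 (q2 + β * T)
      rw [div_le_iff₀ (by positivity), show q2 + β * T + 1 - q2 = β * T + 1 by omega] at h3
      have h4 : ((β : ℝ) * T) ^ q2 ≤ ((β * T + 1 : ℕ) : ℝ) ^ q2 := by
        gcongr
        push_cast
        linarith
      rw [← mul_pow]
      linarith
    have u1 : (n1.factorial : ℝ) * ((n1 + (γ * T + S)).choose n1 : ℝ) ≤
        ((γ : ℝ) + (n1 + S : ℕ) / T) ^ n1 * (T : ℝ) ^ n1 := by
      have := Nat.choose_le_pow_div (α := ℝ) n1 (n1 + (γ * T + S))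
      rw [le_div_iff₀ (by positivity)] at this
      rw [← mul_pow, add_mul, div_mul_cancel₀ _ hTp.ne']
      rw [mul_comm]
      refine this.trans (le_of_eq ?_)
      push_cast
      ring
    have u2 : (n2.factorial : ℝ) * ((n2 + (α * T + 2 * (β * T) + S)).choose n2 : ℝ) ≤
        ((α : ℝ) + 2 * β + (n2 + S : ℕ) / T) ^ n2 * (T : ℝ) ^ n2 := by
      have := Nat.choose_le_pow_div (α := ℝ) n2 (n2 + (α * T + 2 * (β * T) + S))
      rw [le_div_iff₀ (by positivity)] at this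
      rw [← mul_pow, add_mul, div_mul_cancel₀ _ hTp.ne']
      rw [mul_comm]
      refine this.trans (le_of_eq ?_)
      push_cast
      ring
    have hTT : (T : ℝ) ^ q1 * (T : ℝ) ^ q2 = (T : ℝ) ^ n1 * (T : ℝ) ^ n2 := by
      rw [← pow_add, ← pow_add, hc]
    have hpos : (0 : ℝ) < (T : ℝ) ^ q1 * (T : ℝ) ^ q2 := by positivity
    refine le_of_mul_le_mul_right ?_ hpos
    calc (S : ℝ) * ((α : ℝ) ^ q1 * (β : ℝ) ^ q2) * ((n1.factorial : ℝ) * n2.factorial) *
          ((T : ℝ) ^ q1 * (T : ℝ) ^ q2)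
        = (S : ℝ) * (((α : ℝ) ^ q1 * (T : ℝ) ^ q1) * ((β : ℝ) ^ q2 * (T : ℝ) ^ q2)) *
          ((n1.factorial : ℝ) * n2.factorial) := by ring
      _ ≤ (S : ℝ) * (((q1.factorial : ℝ) * ((q1 + α * T).choose q1 : ℝ)) *
          ((q2.factorial : ℝ) * ((q2 + β * T).choose q2 : ℝ))) *
          ((n1.factorial : ℝ) * n2.factorial) := by gcongr
      _ = ((q1.factorial : ℝ) * q2.factorial) * ((n1.factorial : ℝ) * n2.factorial) *
          ((S : ℝ) * (((q1 + α * T).choose q1 : ℝ) * ((q2 + β * T).choose q2 : ℝ))) := by ring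
      _ ≤ ((q1.factorial : ℝ) * q2.factorial) * ((n1.factorial : ℝ) * n2.factorial) *
          (((n1 + (γ * T + S)).choose n1 : ℝ) * ((n2 + (α * T + 2 * (β * T) + S)).choose n2 : ℝ)) := by
        gcongr
      _ = ((q1.factorial : ℝ) * q2.factorial) *
          (((n1.factorial : ℝ) * ((n1 + (γ * T + S)).choose n1 : ℝ)) *
          ((n2.factorial : ℝ) * ((n2 + (α * T + 2 * (β * T) + S)).choose n2 : ℝ))) := by ring
      _ ≤ ((q1.factorial : ℝ) * q2.factorial) *
          ((((γ : ℝ) + (n1 + S : ℕ) / T) ^ n1 * (T : ℝ) ^ n1) *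
          (((α : ℝ) + 2 * β + (n2 + S : ℕ) / T) ^ n2 * (T : ℝ) ^ n2)) := by gcongr
      _ = _ := by rw [hTT]; ring
  -- limit
  have lim : Filter.Tendsto (fun T : ℕ => ((q1.factorial : ℝ) * q2.factorial) *
      (((γ : ℝ) + (n1 + S : ℕ) / T) ^ n1 * ((α : ℝ) + 2 * β + (n2 + S : ℕ) / T) ^ n2)) Filter.atTop
      (nhds (((q1.factorial : ℝ) * q2.factorial) * (((γ : ℝ) + 0) ^ n1 * ((α : ℝ) + 2 * β + 0) ^ n2))) := by
    refine Filter.Tendsto.const_mul _ (Filter.Tendsto.mul ?_ ?_)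
    · exact ((tendsto_const_div_atTop_nhds_zero_nat _).const_add _).pow _
    · exact ((tendsto_const_div_atTop_nhds_zero_nat _).const_add _).pow _
  have fin := ge_of_tendsto lim (Filter.eventually_atTop.2 ⟨1, hT⟩)
  rw [add_zero, add_zero] at fin
  exact_mod_cast fin

end Pool.CD
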