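import Pool.Agent.Helper97.CD.Count
import Pool.Agent.Helper74.Bez.CritPt

/-!
Matrices of polynomials `A` and nondegenerate critical points of the coordinate `y none` on the
hypersurface `det A = 0` (MP_381749_lc, determinants with polynomial entries).
-/
namespace Pool.CD
open Finset Matrix Bez

variable {K : Type*} [Field K] {μ ν σ : Type*} [Fintype μ] [DecidableEq μ] [Fintype ν] [DecidableEq ν]

section deriv

variable {R S : Type*} [CommRing R] [CommRing S] [Algebra R S]

theorem derivation_prod (D : Derivation R S S) {ι : Type*} [DecidableEq ι] (s : Finset ι)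
    (f : ι → S) : D (∏ i ∈ s, f i) = ∑ j ∈ s, (∏ i ∈ s.erase j, f i) * D (f j) := by
  induction s using Finset.induction_on with
  | empty => simp
  | insert a s ha ih =>
    rw [Finset.prod_insert ha, Derivation.leibniz, ih, Finset.sum_insert ha,
      Finset.erase_insert ha, smul_eq_mul, smul_eq_mul, Finset.mul_sum, add_comm]
    congr 1
    refine Finset.sum_congr rfl fun j hj => ?_
    have hja : a ≠ j := fun h => ha (h ▸ hj)
    rw [Finset.erase_insert_of_ne hja, Finset.prod_insert (by
      intro h; exact ha (Finset.mem_of_mem_erase h))]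
    ring

/-- Jacobi's formula -/
theorem derivation_det (D : Derivation R S S) (M : Matrix μ μ S) :
    D M.det = (M.adjugate * M.map D).trace := by
  have h1 : D M.det = ∑ j, (M.updateCol j (fun i => D (M i j))).det := by
    simp only [det_apply, map_sum]
    rw [Finset.sum_comm]
    refine Finset.sum_congr rfl fun σ _ => ?_
    have h2 : ∀ (z : ℤˣ) (q : S), D (z • q) = z • D q := by
      intro z q
      rcases Int.units_eq_one_or z with h | h <;> rw [h] <;> simp
    rw [h2, derivation_prod, Finset.smul_sum]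
    refine Finset.sum_congr rfl fun j _ => ?_
    congr 1
    rw [← Finset.mul_prod_erase univ _ (Finset.mem_univ j), mul_comm]
    congr 1
    · simp
    · refine Finset.prod_congr rfl fun i hi => ?_
      rw [updateCol_ne (Finset.ne_of_mem_erase hi)]
  rw [h1, trace]
  refine Finset.sum_congr rfl fun j _ => ?_
  rw [← cramer_apply, cramer_eq_adjugate_mulVec]
  rfl

omit [DecidableEq μ] in
theorem derivation_trace_mul (D : Derivation R S S) (M N : Matrix μ μ S) :
    D (M * N).trace = (M.map D * N).trace + (M * N.map D).trace := by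
  simp only [trace, diag_apply, mul_apply, map_sum, Derivation.leibniz, smul_eq_mul, map_apply,
    ← Finset.sum_add_distrib]
  refine Finset.sum_congr rfl fun i _ => Finset.sum_congr rfl fun j _ => ?_
  ring

end deriv

/-- value of a matrix of polynomials -/
noncomputable def ev (y : σ → K) (A : Matrix μ μ (MvPolynomial σ K)) : Matrix μ μ K :=
  A.map (MvPolynomial.eval y)

/-- value of the partial derivative -/
noncomputable def dv (y : σ → K) (v : σ) (A : Matrix μ μ (MvPolynomial σ K)) : Matrix μ μ K :=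
  A.map (fun p => MvPolynomial.eval y (MvPolynomial.pderiv v p))

/-- value of the second partial derivative -/
noncomputable def ddv (y : σ → K) (j v : σ) (A : Matrix μ μ (MvPolynomial σ K)) : Matrix μ μ K :=
  A.map (fun p => MvPolynomial.eval y (MvPolynomial.pderiv j (MvPolynomial.pderiv v p)))


theorem ev_det (y : σ → K) (A : Matrix μ μ (MvPolynomial σ K)) :
    (ev y A).det = MvPolynomial.eval y A.det := by
  have := RingHom.map_det (MvPolynomial.eval y) A
  exact this.symm

theorem ev_adj (y : σ → K) (A : Matrix μ μ (MvPolynomial σ K)) :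
    ev y A.adjugate = (ev y A).adjugate := by
  have := RingHom.map_adjugate (MvPolynomial.eval y) A
  exact this

theorem ev_mul (y : σ → K) (A B : Matrix μ μ (MvPolynomial σ K)) :
    ev y (A * B) = ev y A * ev y B := by
  have := RingHom.map_mul (RingHom.mapMatrix (MvPolynomial.eval y)) A B
  exact this

omit [DecidableEq μ] in
theorem eval_trace (y : σ → K) (A : Matrix μ μ (MvPolynomial σ K)) :
    MvPolynomial.eval y A.trace = (ev y A).trace := by
  simp only [trace, diag_apply, map_sum]
  rfl

theorem tr_D (y : σ → K) (A : Matrix μ μ (MvPolynomial σ K)) (v : σ) :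
    ((ev y A).adjugate * dv y v A).trace =
      MvPolynomial.eval y (MvPolynomial.pderiv v A.det) := by
  rw [derivation_det, eval_trace, ev_mul, ev_adj]
  rfl

/-- derivative of the adjugate in the direction `u` -/
noncomputable def dadj' [Fintype σ] (y u : σ → K) (A : Matrix μ μ (MvPolynomial σ K)) :
    Matrix μ μ K := ∑ j, u j • dv y j A.adjugate

theorem tr_dadj' [Fintype σ] (y u : σ → K) (A : Matrix μ μ (MvPolynomial σ K)) (v : σ) :
    (dadj' y u A * dv y v A).trace + ((ev y A).adjugate * ∑ j, u j • ddv y j v A).trace =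
      ∑ j, MvPolynomial.eval y (MvPolynomial.pderiv j (MvPolynomial.pderiv v A.det)) * u j := by
  have h : ∀ j, MvPolynomial.eval y (MvPolynomial.pderiv j (MvPolynomial.pderiv v A.det)) =
      (dv y j A.adjugate * dv y v A).trace + ((ev y A).adjugate * ddv y j v A).trace := by
    intro j
    rw [derivation_det (MvPolynomial.pderiv v), derivation_trace_mul (MvPolynomial.pderiv j), map_add,
      eval_trace, eval_trace, ev_mul, ev_mul, ev_adj]
    rfl
  simp_rw [h, dadj', Matrix.sum_mul, Matrix.mul_sum, trace_sum, add_mul, Finset.sum_add_distrib,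
    Matrix.smul_mul, Matrix.mul_smul, trace_smul, smul_eq_mul]
  congr 1 <;> exact Finset.sum_congr rfl fun j _ => mul_comm _ _

theorem dadj'_mul [Fintype σ] (y u : σ → K) (A : Matrix μ μ (MvPolynomial σ K)) :
    dadj' y u A * ev y A + (ev y A).adjugate * ∑ v, u v • dv y v A =
      (((ev y A).adjugate * ∑ v, u v • dv y v A).trace) • (1 : Matrix μ μ K) := by
  have h : ∀ j, dv y j A.adjugate * ev y A + (ev y A).adjugate * dv y j A =
      (((ev y A).adjugate * dv y j A).trace) • (1 : Matrix μ μ K) := by
    intro j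
    have h1 := adjugate_mul A
    rw [tr_D]
    ext a b
    have h2 := congrArg (fun M => MvPolynomial.eval y (MvPolynomial.pderiv j (M a b))) h1
    simp only [mul_apply, map_sum, Derivation.leibniz, smul_eq_mul, Matrix.smul_apply] at h2
    simp only [Matrix.add_apply, mul_apply, ← Finset.sum_add_distrib, Matrix.smul_apply, smul_eq_mul]
    have e1 : ∀ x, dv y j A.adjugate a x * ev y A x b + (ev y A).adjugate a x * dv y j A x b =
        MvPolynomial.eval y (A.adjugate a x * (MvPolynomial.pderiv j) (A x b) +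
          A x b * (MvPolynomial.pderiv j) (A.adjugate a x)) := by
      intro x
      rw [← ev_adj]
      simp only [dv, ev, map_apply, map_add, map_mul]
      ring
    rw [Finset.sum_congr rfl fun x _ => e1 x]
    rw [h2]
    by_cases hab : a = b
    · subst hab
      simp
    · simp [one_apply_ne hab]
  simp_rw [dadj', Matrix.sum_mul, Matrix.mul_sum, trace_sum, Matrix.smul_mul, Matrix.mul_smul,
    trace_smul, Finset.sum_smul, ← Finset.sum_add_distrib, smul_eq_mul, mul_smul]
  exact Finset.sum_congr rfl fun j _ => by rw [← smul_add, h]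

theorem mul_dadj' [Fintype σ] (y u : σ → K) (A : Matrix μ μ (MvPolynomial σ K)) :
    ev y A * dadj' y u A + (∑ v, u v • dv y v A) * (ev y A).adjugate =
      (((ev y A).adjugate * ∑ v, u v • dv y v A).trace) • (1 : Matrix μ μ K) := by
  have h : ∀ j, ev y A * dv y j A.adjugate + dv y j A * (ev y A).adjugate =
      (((ev y A).adjugate * dv y j A).trace) • (1 : Matrix μ μ K) := by
    intro j
    have h1 := mul_adjugate A
    rw [tr_D]
    ext a b
    have h2 := congrArg (fun M => MvPolynomial.eval y (MvPolynomial.pderiv j (M a b))) h1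
    simp only [mul_apply, map_sum, Derivation.leibniz, smul_eq_mul, Matrix.smul_apply] at h2
    simp only [Matrix.add_apply, mul_apply, ← Finset.sum_add_distrib, Matrix.smul_apply, smul_eq_mul]
    have e1 : ∀ x, ev y A a x * dv y j A.adjugate x b + dv y j A a x * (ev y A).adjugate x b =
        MvPolynomial.eval y (A a x * (MvPolynomial.pderiv j) (A.adjugate x b) +
          A.adjugate x b * (MvPolynomial.pderiv j) (A a x)) := by
      intro x
      rw [← ev_adj]
      simp only [dv, ev, map_apply, map_add, map_mul]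
      ring
    rw [Finset.sum_congr rfl fun x _ => e1 x]
    rw [h2]
    by_cases hab : a = b
    · subst hab
      simp
    · simp [one_apply_ne hab]
  simp_rw [dadj', Matrix.sum_mul, Matrix.mul_sum, trace_sum, Matrix.smul_mul, Matrix.mul_smul,
    trace_smul, Finset.sum_smul, ← Finset.sum_add_distrib, smul_eq_mul, mul_smul]
  exact Finset.sum_congr rfl fun j _ => by rw [← smul_add, h]

/-- linearised system at a nondegenerate critical point: only the zero solution -/
theorem lin_zero (A : Matrix μ μ (MvPolynomial (Option ν) K))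
    (y : Option ν → K) (k h w : μ → K) (c : K)
    (hH : ∀ u : ν → K, (∀ v, ∑ j, MvPolynomial.eval y
      (MvPolynomial.pderiv (some j) (MvPolynomial.pderiv (some v) A.det)) * u j = 0) → u = 0)
    (hadj : (ev y A).adjugate = c • vecMulVec k h)
    (hk : ev y A *ᵥ k = 0) (hh : h ᵥ* ev y A = 0)
    (hker : ∀ k', ev y A *ᵥ k' = 0 → ∃ a : K, k' = a • k)
    (hker' : ∀ h', h' ᵥ* ev y A = 0 → ∃ b : K, h' = b • h)
    (hL : ∀ v, h ⬝ᵥ (dv y (some v) A *ᵥ k) = 0) (hT : h ⬝ᵥ (dv y none A *ᵥ k) = 1)
    (hw : w ⬝ᵥ k = 1)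
    (y' : Option ν → K) (s' : K) (k' h' : μ → K)
    (e1 : (∑ v, y' v • dv y v A) *ᵥ k + ev y A *ᵥ k' = 0)
    (e2 : h ᵥ* (∑ v, y' v • dv y v A) + h' ᵥ* ev y A = s' • w)
    (e3 : ∀ v, h' ⬝ᵥ (dv y (some v) A *ᵥ k) + h ⬝ᵥ (dv y (some v) A *ᵥ k') +
      h ⬝ᵥ ((∑ j, y' j • ddv y j (some v) A) *ᵥ k) = 0)
    (e4 : w ⬝ᵥ k' = 0) (e5 : h' ⬝ᵥ (dv y none A *ᵥ k) + h ⬝ᵥ (dv y none A *ᵥ k') +
      h ⬝ᵥ ((∑ j, y' j • ddv y j none A) *ᵥ k) = 0) :
    y' = 0 ∧ s' = 0 ∧ k' = 0 ∧ h' = 0 := by
  set B0 := ev y A with hA
  have hsum : h ⬝ᵥ ((∑ v, y' v • dv y v A) *ᵥ k) = y' none := by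
    rw [Fintype.sum_option, add_mulVec, dotProduct_add, smul_mulVec, dotProduct_smul, hT,
      sum_mulVec, dotProduct_sum, Finset.sum_eq_zero, add_zero, smul_eq_mul, mul_one]
    intro v _
    rw [smul_mulVec, dotProduct_smul, hL, smul_zero]
  have hhA : ∀ z, h ⬝ᵥ (B0 *ᵥ z) = 0 := by
    intro z
    rw [dotProduct_mulVec, hh, zero_dotProduct]
  -- `t' = 0`
  have ht' : y' none = 0 := by
    have := congrArg (fun z => h ⬝ᵥ z) e1
    simp only [dotProduct_add, dotProduct_zero, hhA, hsum, add_zero] at this
    exact this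
  rw [ht'] at hsum
  -- `s' = 0`
  have hs' : s' = 0 := by
    have := congrArg (fun z => z ⬝ᵥ k) e2
    simp only [add_dotProduct, smul_dotProduct, hw, smul_eq_mul, mul_one] at this
    rw [← dotProduct_mulVec, hsum, ← dotProduct_mulVec, hk, dotProduct_zero, add_zero] at this
    exact this.symm
  subst hs'
  simp only [zero_smul] at e2
  -- the derivative of the adjugate
  set D := dadj' y y' A with hD
  have htr : (B0.adjugate * ∑ v, y' v • dv y v A).trace = 0 := by
    rw [hadj, Matrix.smul_mul, vecMulVec_mul, trace_smul, trace_vecMulVec, dotProduct_comm,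
      ← dotProduct_mulVec, hsum, smul_zero]
  have hDA := dadj'_mul y y' A
  have hAD := mul_dadj' y y' A
  rw [← hA, htr, zero_smul] at hDA hAD
  set B := D - c • (vecMulVec k' h + vecMulVec k h') with hB
  have hAB : B0 * B = 0 := by
    rw [hB, Matrix.mul_sub, Matrix.mul_smul, Matrix.mul_add, mul_vecMulVec, mul_vecMulVec, hk,
      zero_vecMulVec, add_zero]
    have h1 : B0 * D = -(c • vecMulVec ((∑ v, y' v • dv y v A) *ᵥ k) h) := by
      rw [← mul_vecMulVec, ← Matrix.mul_smul, ← hadj]
      exact eq_neg_of_add_eq_zero_left hAD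
    have h2 : B0 *ᵥ k' = -((∑ v, y' v • dv y v A) *ᵥ k) := eq_neg_of_add_eq_zero_right e1
    rw [h1, h2, neg_vecMulVec, smul_neg, sub_self]
  have hBA : B * B0 = 0 := by
    rw [hB, Matrix.sub_mul, Matrix.smul_mul, Matrix.add_mul, vecMulVec_mul, vecMulVec_mul, hh,
      vecMulVec_zero, zero_add]
    have h1 : D * B0 = -(c • vecMulVec k (h ᵥ* (∑ v, y' v • dv y v A))) := by
      rw [← vecMulVec_mul, ← Matrix.smul_mul, ← hadj]
      exact eq_neg_of_add_eq_zero_left hDA
    have h2 : h' ᵥ* B0 = -(h ᵥ* (∑ v, y' v • dv y v A)) := eq_neg_of_add_eq_zero_right e2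
    rw [h1, h2, vecMulVec_neg, smul_neg, sub_self]
  -- `B = k z` with `z` in the left kernel
  have hcol : ∀ j, ∃ z : K, (fun i => B i j) = z • k := by
    intro j
    apply hker
    ext i
    have := congrFun (congrFun hAB i) j
    rw [mul_apply] at this
    exact this
  choose z hz using hcol
  have hBc : B = vecMulVec k z := by
    ext i j
    have := congrFun (hz j) i
    simp only [Pi.smul_apply, smul_eq_mul] at this
    rw [this, vecMulVec_apply, mul_comm]
  have hk0 : k ≠ 0 := by
    rintro rfl
    simp at hw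
  have hzA : z ᵥ* B0 = 0 := by
    obtain ⟨i0, hi0⟩ := Function.ne_iff.1 hk0
    rw [hBc, vecMulVec_mul] at hBA
    ext j
    have := congrFun (congrFun hBA i0) j
    rw [vecMulVec_apply, Matrix.zero_apply] at this
    exact (mul_eq_zero.1 this).resolve_left hi0
  obtain ⟨b, hb⟩ := hker' z hzA
  -- Hessian
  have hx' : (fun v => y' (some v)) = 0 := by
    apply hH
    intro v
    have h0 := tr_dadj' y y' A (some v)
    rw [← hA, ← hD, Fintype.sum_option (f := fun j => MvPolynomial.eval y
      (MvPolynomial.pderiv j (MvPolynomial.pderiv (some v) A.det)) * y' j), ht', mul_zero,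
      zero_add] at h0
    rw [← h0]
    have hDB : D = B + c • (vecMulVec k' h + vecMulVec k h') := by rw [hB, sub_add_cancel]
    have h5 : (B0.adjugate * ∑ j, y' j • ddv y j (some v) A).trace =
        c * (h ⬝ᵥ ((∑ j, y' j • ddv y j (some v) A) *ᵥ k)) := by
      rw [hadj, Matrix.smul_mul, trace_smul, vecMulVec_mul, trace_vecMulVec, smul_eq_mul,
        dotProduct_comm, ← dotProduct_mulVec]
    rw [h5, hDB, hBc, hb, Matrix.add_mul, Matrix.smul_mul, Matrix.add_mul, vecMulVec_mul, vecMulVec_mul,
      vecMulVec_mul, trace_add, trace_smul, trace_add, trace_vecMulVec, trace_vecMulVec,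
      trace_vecMulVec, smul_vecMul, dotProduct_smul, dotProduct_comm, ← dotProduct_mulVec, hL,
      smul_zero, zero_add, dotProduct_comm, ← dotProduct_mulVec, dotProduct_comm k,
      ← dotProduct_mulVec, smul_eq_mul, ← mul_add]
    have h6 := e3 v
    rw [show h ⬝ᵥ (dv y (some v) A *ᵥ k') + h' ⬝ᵥ (dv y (some v) A *ᵥ k) +
      h ⬝ᵥ ((∑ j, y' j • ddv y j (some v) A) *ᵥ k) = 0 by rw [← h6]; ring, mul_zero]
  have hy' : y' = 0 := by
    funext o
    rcases o with _ | v
    · exact ht'
    · exact congrFun hx' v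
  subst hy'
  simp only [Pi.zero_apply, zero_smul, Finset.sum_const_zero, zero_mulVec, vecMul_zero, zero_add,
    dotProduct_zero, add_zero] at e1 e2 e5
  obtain ⟨a, ha⟩ := hker k' e1
  have ha0 : a = 0 := by
    rw [ha, dotProduct_smul, hw, smul_eq_mul, mul_one] at e4
    exact e4
  obtain ⟨b', hb'⟩ := hker' h' e2
  have hk'0 : k' = 0 := by rw [ha, ha0, zero_smul]
  have hb0 : b' = 0 := by
    rw [hk'0, hb', mulVec_zero, dotProduct_zero, add_zero, smul_dotProduct, hT, smul_eq_mul, mul_one] at e5
    exact e5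
  exact ⟨rfl, rfl, hk'0, by rw [hb', hb0, zero_smul]⟩

end Pool.CD
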