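import Pool.Agent.Helper97.CD.PfClass
import Pool.Agent.Helper97.CD.PNum

/-!
# Pfaffians with entries of degree at most `δ` whose limit is the permanent: `c n ^ 3 ≤ m δ`
-/

set_option autoImplicit false

namespace Pool.CD

theorem final : ∃ c : ℝ, 0 < c ∧ ∀ n m δ : ℕ, 1 ≤ δ → (δ : ℝ) ≤ max 1 (c * n) →
    BR (PfCls m δ) n → c * (n : ℝ) ^ 3 ≤ m * δ := by
  obtain ⟨c, hc, H⟩ := numericP 702 (by norm_num)
  refine ⟨c, hc, fun n m δ hδ hδn h => ?_⟩
  obtain ⟨e, rfl⟩ : ∃ e, δ = e + 1 := ⟨δ - 1, by omega⟩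
  rcases Nat.eq_zero_or_pos n with h0 | hn
  · subst h0
    have : (0 : ℝ) ≤ (m : ℝ) * ((e + 1 : ℕ) : ℝ) := by positivity
    simpa using this
  have hec : (e : ℝ) ≤ c * n ∨ e = 0 := by
    push_cast at hδn
    rcases le_max_iff.1 hδn with h1 | h1
    · right
      have h2 : (e : ℝ) ≤ 0 := by linarith
      have h3 : e ≤ 0 := by exact_mod_cast h2
      omega
    · left
      linarith
  have h1 := H n m e (h.pf_pos hn) hec fun M d hM hMd hd hMn => pf_ineq hM hMd hd hMn h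
  push_cast
  exact h1

end Pool.CD
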