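import Pool.Agent.PF.Cayley
import Pool.Agent.Helper97.CD.Crit

/-!
# The adjugate of a Pfaffian (MP_381749_lc)

`exists_padj`: for an alternating matrix `A` of size `2 (k + 1)` there is `B` with
`A * B = pf A • 1`; over a domain of characteristic zero, if `pf A ≠ 0`, `B` is skew-symmetric,
`B * A = pf A • 1` and `2 D (pf A) = tr (B * D A)` for every derivation `D`.
-/

set_option autoImplicit false

namespace Pool.PF

open Finset Matrix

section
variable {R : Type*} [CommRing R] {ι : Type*}

/-- moving an element to the front -/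
theorem Alt.move {G : List ι → R} (hG : Alt G) {n : ℕ} (f : Fin (n + 1) → ι) (q : Fin (n + 1)) :
    G (List.ofFn f) = (-1) ^ (q : ℕ) * G (f q :: List.ofFn fun i => f (q.succAbove i)) := by
  induction n generalizing G with
  | zero =>
    obtain rfl : q = ⟨0, Nat.zero_lt_one⟩ := by
      apply Fin.ext
      have := q.2
      simp only
      omega
    simp
  | succ n ih =>
    induction q using Fin.cases with
    | zero =>
      rw [List.ofFn_succ]
      simp
    | succ q =>
      rw [List.ofFn_succ (f := f)]
      have h1 := ih (G := fun l => G (f 0 :: l)) (hG.cons _) (fun i => f i.succ) q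
      rw [h1]
      have h2 := hG [] (f 0) (f q.succ) (List.ofFn fun i => f (q.succAbove i).succ)
      rw [List.nil_append, List.nil_append] at h2
      rw [h2]
      have h3 : (List.ofFn fun i : Fin (n + 1) => f (q.succ.succAbove i)) =
          f 0 :: List.ofFn fun i => f (q.succAbove i).succ := by
        rw [List.ofFn_succ]
        simp
      rw [h3, Fin.val_succ, pow_succ]
      ring

end

section
variable {R : Type*} [CommRing R]

theorem exists_padj (k : ℕ) (A : Matrix (Fin (2 * (k + 1))) (Fin (2 * (k + 1))) R)
    (hA : IsAlt A) : ∃ B : Matrix (Fin (2 * (k + 1))) (Fin (2 * (k + 1))) R,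
      A * B = pf (k + 1) A • (1 : Matrix _ _ R) := by
  classical
  set rest : Fin (2 * k + 1 + 1) → List (Fin (2 * (k + 1))) := fun q =>
    List.ofFn fun i : Fin (2 * k + 1) => (q.succAbove i : Fin (2 * k + 1 + 1)) with hrest
  refine ⟨Matrix.of fun z q => (-1) ^ (q : ℕ) *
    se (fun z' l' => (if z' = z then (1 : R) else 0) * pfk A k l') (rest q), ?_⟩
  ext p q
  rw [Matrix.mul_apply]
  have h1 : ∀ (L : List (Fin (2 * (k + 1)))), ∑ z, A p z *
      se (fun z' l' => (if z' = z then (1 : R) else 0) * pfk A k l') L =
      se (fun z l' => A p z * pfk A k l') L := by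
    intro L
    have hs : ∀ (s : Finset (Fin (2 * (k + 1)))), ∑ z ∈ s, A p z *
      se (fun z' l' => (if z' = z then (1 : R) else 0) * pfk A k l') L =
      se (fun z' l' => (if z' ∈ s then A p z' else 0) * pfk A k l') L := by
      intro s
      induction s using Finset.induction_on with
      | empty => simp [se_zero]
      | insert a s ha ih =>
        rw [Finset.sum_insert ha, ih, ← se_mul_left, ← se_add]
        congr 1
        ext z' l'
        by_cases hz : z' = a
        · subst hz
          simp [ha]
        · simp [hz]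
    rw [hs univ]
    simp
  have h2 : ∑ z, A p z * (Matrix.of fun z (q : Fin (2 * (k + 1))) => (-1) ^ (q : ℕ) *
      se (fun z' l' => (if z' = z then (1 : R) else 0) * pfk A k l') (rest q)) z q =
      (-1) ^ (q : ℕ) * se (fun z l' => A p z * pfk A k l') (rest q) := by
    rw [← h1, Finset.mul_sum]
    refine Finset.sum_congr rfl fun z _ => ?_
    rw [Matrix.of_apply]
    ring
  rw [h2]
  by_cases hpq : p = q
  · subst hpq
    rw [Matrix.smul_apply, Matrix.one_apply_eq, smul_eq_mul, mul_one, pf_eq_pfk_id]
    have h3 := Alt.move (pfk_alt hA.1 (k + 1)) (n := 2 * k + 1)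
      (id : Fin (2 * k + 1 + 1) → Fin (2 * (k + 1))) p
    exact h3.symm
  · rw [Matrix.smul_apply, Matrix.one_apply_ne hpq, smul_zero]
    rw [pfk_relation hA.1 hA.2 k (rest q) p, mul_zero]
    rw [hrest]
    simp only [List.mem_ofFn]
    obtain ⟨i, hi⟩ := Fin.exists_succAbove_eq (n := 2 * k + 1) hpq
    exact ⟨i, hi⟩

end

section domain
variable {R : Type*} [CommRing R] [IsDomain R] {μ : Type*} [Fintype μ] [DecidableEq μ]
  {A B : Matrix μ μ R} {P : R}

theorem padj_smul (hAB : A * B = P • (1 : Matrix μ μ R)) (hdet : A.det = P ^ 2) (hP : P ≠ 0) :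
    P • B = A.adjugate := by
  have h1 : A.adjugate * (A * B) = A.det • B := by
    rw [← Matrix.mul_assoc, adjugate_mul, Matrix.smul_mul, Matrix.one_mul]
  rw [hAB, Matrix.mul_smul, Matrix.mul_one, hdet, pow_two, mul_smul] at h1
  exact (smul_right_injective _ hP h1).symm

theorem padj_mul (hAB : A * B = P • (1 : Matrix μ μ R)) (hdet : A.det = P ^ 2) (hP : P ≠ 0) :
    B * A = P • (1 : Matrix μ μ R) := by
  have h1 := adjugate_mul A
  rw [← padj_smul hAB hdet hP, Matrix.smul_mul, hdet, pow_two, mul_smul] at h1
  exact smul_right_injective _ hP h1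

theorem padj_skew (hAB : A * B = P • (1 : Matrix μ μ R)) (hdet : A.det = P ^ 2) (hP : P ≠ 0)
    (hA : A.transpose = -A) : B.transpose = -B := by
  have h1 : B.transpose * A = -(P • (1 : Matrix μ μ R)) := by
    have h2 := congrArg Matrix.transpose hAB
    rw [transpose_mul, transpose_smul, transpose_one, hA, Matrix.mul_neg] at h2
    rw [← h2, neg_neg]
  have h2 : (B.transpose + B) * A = 0 := by
    rw [Matrix.add_mul, h1, padj_mul hAB hdet hP, neg_add_cancel]
  have h3 : P • (B.transpose + B) = P • (0 : Matrix μ μ R) := by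
    have h4 := congrArg (fun M => M * B) h2
    simp only [Matrix.zero_mul] at h4
    rw [Matrix.mul_assoc, hAB, Matrix.mul_smul, Matrix.mul_one] at h4
    rw [h4, smul_zero]
  exact eq_neg_of_add_eq_zero_left (smul_right_injective _ hP h3)

theorem padj_deriv {S : Type*} [CommRing S] [Algebra S R] (D : Derivation S R R)
    (hAB : A * B = P • (1 : Matrix μ μ R)) (hdet : A.det = P ^ 2) (hP : P ≠ 0) :
    2 * D P = (B * A.map D).trace := by
  have h1 := Pool.CD.derivation_det D A
  rw [hdet, ← padj_smul hAB hdet hP, Matrix.smul_mul, trace_smul, smul_eq_mul, pow_two,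
    Derivation.leibniz, smul_eq_mul] at h1
  refine mul_left_cancel₀ hP ?_
  rw [← h1]
  ring

end domain

end Pool.PF
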