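import Pool.Agent.Helper97.CD.PAdj

/-!
Alternating matrices of polynomials and nondegenerate critical points of the coordinate `y none` on
the hypersurface `pf A = 0` (MP_381749_lc).
-/
set_option autoImplicit false

namespace Pool.CD
open Finset Matrix Bez

variable {K : Type*} [Field K] {μ ν σ : Type*} [Fintype μ] [DecidableEq μ] [Fintype ν] [DecidableEq ν]

/-! ### bases of two-dimensional kernels -/

/-- `k, h` is a basis of the kernel -/
def KB (A0 : Matrix μ μ K) (k h : μ → K) : Prop :=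
  A0 *ᵥ k = 0 ∧ A0 *ᵥ h = 0 ∧ (∀ z, A0 *ᵥ z = 0 → ∃ a b : K, z = a • k + b • h) ∧
    ∀ a b : K, a • k + b • h = 0 → a = 0 ∧ b = 0

omit [DecidableEq μ] in
theorem KB.swap {A0 : Matrix μ μ K} {k h : μ → K} (H : KB A0 k h) : KB A0 h k := by
  obtain ⟨h1, h2, h3, h4⟩ := H
  refine ⟨h2, h1, fun z hz => ?_, fun a b hab => ?_⟩
  · obtain ⟨a, b, hab⟩ := h3 z hz
    exact ⟨b, a, by rw [hab, add_comm]⟩
  · have := h4 b a (by rw [← hab, add_comm])
    exact ⟨this.2, this.1⟩

omit [DecidableEq μ] in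
theorem KB.add {A0 : Matrix μ μ K} {k h : μ → K} (H : KB A0 k h) (t : K) : KB A0 (k + t • h) h := by
  obtain ⟨h1, h2, h3, h4⟩ := H
  refine ⟨?_, h2, fun z hz => ?_, fun a b hab => ?_⟩
  · rw [mulVec_add, mulVec_smul, h1, h2, smul_zero, add_zero]
  · obtain ⟨a, b, hab⟩ := h3 z hz
    refine ⟨a, b - a * t, ?_⟩
    rw [hab, smul_add, smul_smul, sub_smul, add_assoc]
    congr 1
    abel
  · have := h4 a (b + a * t) (by
      rw [← hab, smul_add, smul_smul, add_smul, add_assoc]
      congr 1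
      abel)
    obtain ⟨ha, hb⟩ := this
    rw [ha, zero_mul, add_zero] at hb
    exact ⟨ha, hb⟩

omit [DecidableEq μ] in
theorem KB.smul {A0 : Matrix μ μ K} {k h : μ → K} (H : KB A0 k h) {t : K} (ht : t ≠ 0) :
    KB A0 (t • k) h := by
  obtain ⟨h1, h2, h3, h4⟩ := H
  refine ⟨?_, h2, fun z hz => ?_, fun a b hab => ?_⟩
  · rw [mulVec_smul, h1, smul_zero]
  · obtain ⟨a, b, hab⟩ := h3 z hz
    refine ⟨a * t⁻¹, b, ?_⟩
    rw [hab, smul_smul, mul_assoc, inv_mul_cancel₀ ht, mul_one]
  · have := h4 (a * t) b (by rw [← hab, smul_smul])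
    exact ⟨(mul_eq_zero.1 this.1).resolve_right ht, this.2⟩

omit [DecidableEq μ] in
theorem KB.ne {A0 : Matrix μ μ K} {k h : μ → K} (H : KB A0 k h) : k ≠ 0 := by
  rintro rfl
  have := (H.2.2.2 1 0 (by simp)).1
  exact one_ne_zero this

omit [DecidableEq μ] in
/-- normalisation -/
theorem KB.normalise {A0 : Matrix μ μ K} {k h : μ → K} (H : KB A0 k h) (w1 w2 : μ → K)
    (hw1 : w1 ⬝ᵥ k ≠ 0) (hw2 : w2 ⬝ᵥ (h + (-(w1 ⬝ᵥ h) / (w1 ⬝ᵥ k)) • k) ≠ 0) :
    ∃ k' h', KB A0 k' h' ∧ w1 ⬝ᵥ k' = 1 ∧ w2 ⬝ᵥ k' = 0 ∧ w1 ⬝ᵥ h' = 0 ∧ w2 ⬝ᵥ h' ≠ 0 := by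
  set h1 := h + (-(w1 ⬝ᵥ h) / (w1 ⬝ᵥ k)) • k with hh1
  have H1 : KB A0 k h1 := (H.swap.add _).swap
  have e1 : w1 ⬝ᵥ h1 = 0 := by
    rw [hh1, dotProduct_add, dotProduct_smul, smul_eq_mul, div_mul_cancel₀ _ hw1, add_neg_cancel]
  set k1 := k + (-(w2 ⬝ᵥ k) / (w2 ⬝ᵥ h1)) • h1 with hk1
  have H2 : KB A0 k1 h1 := H1.add _
  have e2 : w2 ⬝ᵥ k1 = 0 := by
    rw [hk1, dotProduct_add, dotProduct_smul, smul_eq_mul, div_mul_cancel₀ _ hw2, add_neg_cancel]
  have e3 : w1 ⬝ᵥ k1 = w1 ⬝ᵥ k := by
    rw [hk1, dotProduct_add, dotProduct_smul, e1, smul_zero, add_zero]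
  refine ⟨(w1 ⬝ᵥ k)⁻¹ • k1, h1, H2.smul (inv_ne_zero hw1), ?_, ?_, e1, hw2⟩
  · rw [dotProduct_smul, e3, smul_eq_mul, inv_mul_cancel₀ hw1]
  · rw [dotProduct_smul, e2, smul_zero]

/-- the kernel is two-dimensional -/
theorem exists_KB [CharZero K] {A0 B0 E F : Matrix μ μ K} {c : K} (hc : c ≠ 0)
    (hAB : A0 * B0 = 0) (h1 : B0 * E + F * A0 = c • (1 : Matrix μ μ K))
    (htr : (B0 * E).trace = 2 * c) : ∃ k h, KB A0 k h := by
  have hfr : Module.finrank K (LinearMap.ker (Matrix.toLin' A0)) = 2 := by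
    have hproj : LinearMap.IsProj (LinearMap.ker (Matrix.toLin' A0))
        (Matrix.toLin' (c⁻¹ • (B0 * E))) := by
      constructor
      · intro z
        rw [LinearMap.mem_ker, toLin'_apply, toLin'_apply, smul_mulVec, mulVec_smul,
          mulVec_mulVec, ← Matrix.mul_assoc, hAB, Matrix.zero_mul, zero_mulVec, smul_zero]
      · intro z hz
        rw [LinearMap.mem_ker, toLin'_apply] at hz
        have e : B0 * E = c • (1 : Matrix μ μ K) - F * A0 := by rw [← h1, add_sub_cancel_right]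
        rw [toLin'_apply, e, smul_mulVec, sub_mulVec, ← mulVec_mulVec, hz, mulVec_zero, sub_zero,
          smul_mulVec, one_mulVec, smul_smul, inv_mul_cancel₀ hc, one_smul]
    have h2 := hproj.trace
    rw [Matrix.trace_toLin'_eq, trace_smul, htr, smul_eq_mul, mul_left_comm, inv_mul_cancel₀ hc,
      mul_one] at h2
    exact_mod_cast h2.symm
  have b := Module.finBasisOfFinrankEq K _ hfr
  refine ⟨(b 0 : μ → K), (b 1 : μ → K), ?_, ?_, ?_, ?_⟩
  · have := (b 0).2
    rwa [LinearMap.mem_ker, toLin'_apply] at this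
  · have := (b 1).2
    rwa [LinearMap.mem_ker, toLin'_apply] at this
  · intro z hz
    have hz' : z ∈ LinearMap.ker (Matrix.toLin' A0) := by
      rw [LinearMap.mem_ker, toLin'_apply]
      exact hz
    refine ⟨b.repr ⟨z, hz'⟩ 0, b.repr ⟨z, hz'⟩ 1, ?_⟩
    have h3 := congrArg Subtype.val (b.sum_repr ⟨z, hz'⟩)
    rw [Fin.sum_univ_two] at h3
    exact h3.symm
  · intro x y hxy
    have h3 := Fintype.linearIndependent_iff.1 b.linearIndependent ![x, y] (by
      rw [Fin.sum_univ_two]
      apply Subtype.ext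
      exact hxy)
    exact ⟨h3 0, h3 1⟩

omit [DecidableEq μ] in
/-- skew-symmetric matrices with columns in the kernel -/
theorem KB.skew_form [CharZero K] {A0 G : Matrix μ μ K} {k h : μ → K} (H : KB A0 k h)
    (hA : A0.transpose = -A0) (hG : G.transpose = -G) (hAG : A0 * G = 0) :
    ∃ g : K, G = g • (vecMulVec k h - vecMulVec h k) := by
  obtain ⟨hk, hh, hsp, hli⟩ := H
  have hGA : G * A0 = 0 := by
    have h1 := congrArg Matrix.transpose hAG
    rw [transpose_mul, hA, hG, Matrix.neg_mul, Matrix.mul_neg, neg_neg, transpose_zero] at h1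
    exact h1
  have hcol : ∀ j, ∃ a b : K, (fun i => G i j) = a • k + b • h := by
    intro j
    apply hsp
    ext i
    have := congrFun (congrFun hAG i) j
    rw [mul_apply] at this
    exact this
  choose p q hpq using hcol
  have hGe : ∀ i j, G i j = p j * k i + q j * h i := by
    intro i j
    have := congrFun (hpq j) i
    simpa using this
  have hker : ∀ j, (p ᵥ* A0) j = 0 ∧ (q ᵥ* A0) j = 0 := by
    intro j
    apply hli
    ext i
    have h1 := congrFun (congrFun hGA i) j
    rw [mul_apply, Matrix.zero_apply] at h1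
    rw [Pi.add_apply, Pi.smul_apply, Pi.smul_apply, smul_eq_mul, smul_eq_mul, Pi.zero_apply, ← h1]
    simp only [vecMul, dotProduct, Finset.sum_mul, ← Finset.sum_add_distrib]
    refine Finset.sum_congr rfl fun l _ => ?_
    rw [hGe i l]
    ring
  have hA' : ∀ z : μ → K, z ᵥ* A0 = 0 → A0 *ᵥ z = 0 := by
    intro z hz
    rw [← vecMul_transpose, hA, vecMul_neg, hz, neg_zero]
  obtain ⟨a, b, hp⟩ := hsp p (hA' p (funext fun j => (hker j).1))
  obtain ⟨a', b', hq⟩ := hsp q (hA' q (funext fun j => (hker j).2))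
  have hGf : ∀ i j, G i j = (a * k j + b * h j) * k i + (a' * k j + b' * h j) * h i := by
    intro i j
    rw [hGe, hp, hq]
    simp
  have hsk : ∀ i j, G i j + G j i = 0 := by
    intro i j
    have := congrFun (congrFun hG j) i
    rw [transpose_apply, Matrix.neg_apply] at this
    rw [this, neg_add_cancel]
  have hj : ∀ j, 2 * a * k j + (b + a') * h j = 0 ∧ (b + a') * k j + 2 * b' * h j = 0 := by
    intro j
    apply hli
    ext i
    have := hsk i j
    rw [hGf, hGf] at this
    simp only [Pi.add_apply, Pi.smul_apply, smul_eq_mul, Pi.zero_apply]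
    rw [← this]
    ring
  have h1 := hli (2 * a) (b + a') (funext fun j => by
    simpa using (hj j).1)
  have h2 := hli (b + a') (2 * b') (funext fun j => by
    simpa using (hj j).2)
  have ha : a = 0 := (mul_eq_zero.1 h1.1).resolve_left two_ne_zero
  have hb' : b' = 0 := (mul_eq_zero.1 h2.2).resolve_left two_ne_zero
  have ha' : a' = -b := eq_neg_of_add_eq_zero_right h1.2
  refine ⟨b, ?_⟩
  ext i j
  rw [hGf, ha, hb', ha']
  simp only [Matrix.smul_apply, Matrix.sub_apply, vecMulVec_apply, smul_eq_mul]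
  ring

/-! ### skew matrices -/

omit [DecidableEq μ] in
theorem skew_dot {M : Matrix μ μ K} (hM : M.transpose = -M) (k h : μ → K) :
    k ⬝ᵥ (M *ᵥ h) = -(h ⬝ᵥ (M *ᵥ k)) := by
  rw [dotProduct_comm k, ← vecMul_transpose, hM, vecMul_neg, neg_dotProduct, dotProduct_mulVec]

omit [DecidableEq μ] in
theorem skew_dot_self [CharZero K] {M : Matrix μ μ K} (hM : M.transpose = -M) (k : μ → K) :
    k ⬝ᵥ (M *ᵥ k) = 0 := by
  have h1 := skew_dot hM k k
  have h2 : 2 * (k ⬝ᵥ (M *ᵥ k)) = 0 := by linear_combination h1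
  exact (mul_eq_zero.1 h2).resolve_left two_ne_zero

omit [DecidableEq μ] in
theorem tr_vv (M : Matrix μ μ K) (k h : μ → K) :
    (vecMulVec k h * M).trace = h ⬝ᵥ (M *ᵥ k) := by
  rw [vecMulVec_mul, trace_vecMulVec, dotProduct_comm, dotProduct_mulVec]

omit [Fintype μ] [DecidableEq μ] in
/-- values of skew matrices of polynomials -/
theorem ev_skew {A : Matrix μ μ (MvPolynomial σ K)} (hA : A.transpose = -A) (y : σ → K) :
    (ev y A).transpose = -ev y A := by
  ext i j
  have := congrFun (congrFun hA i) j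
  rw [transpose_apply, Matrix.neg_apply] at this
  simp only [ev, transpose_apply, map_apply, Matrix.neg_apply, this, map_neg]

omit [Fintype μ] [DecidableEq μ] in
theorem dv_skew {A : Matrix μ μ (MvPolynomial σ K)} (hA : A.transpose = -A) (y : σ → K) (v : σ) :
    (dv y v A).transpose = -dv y v A := by
  ext i j
  have := congrFun (congrFun hA i) j
  rw [transpose_apply, Matrix.neg_apply] at this
  simp only [dv, transpose_apply, map_apply, Matrix.neg_apply, this, map_neg]

omit [Fintype μ] [DecidableEq μ] in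
theorem ddv_skew {A : Matrix μ μ (MvPolynomial σ K)} (hA : A.transpose = -A) (y : σ → K) (j v : σ) :
    (ddv y j v A).transpose = -ddv y j v A := by
  ext a b
  have := congrFun (congrFun hA a) b
  rw [transpose_apply, Matrix.neg_apply] at this
  simp only [ddv, transpose_apply, map_apply, Matrix.neg_apply, this, map_neg]

omit [Fintype μ] [DecidableEq μ] in
theorem sum_skew {ι : Type*} (s : Finset ι) (u : ι → K) (M : ι → Matrix μ μ K)
    (hM : ∀ i, (M i).transpose = -M i) :
    (∑ i ∈ s, u i • M i).transpose = -∑ i ∈ s, u i • M i := by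
  rw [transpose_sum, ← Finset.sum_neg_distrib]
  exact Finset.sum_congr rfl fun i _ => by rw [transpose_smul, hM, smul_neg]

omit [DecidableEq μ] in
/-- product rule -/
theorem dv_mul (y : σ → K) (v : σ) (A B : Matrix μ μ (MvPolynomial σ K)) :
    dv y v (A * B) = dv y v A * ev y B + ev y A * dv y v B := by
  ext a b
  simp only [dv, ev, map_apply, mul_apply, Matrix.add_apply, map_sum, Derivation.leibniz,
    smul_eq_mul, map_add, map_mul, ← Finset.sum_add_distrib]
  exact Finset.sum_congr rfl fun x _ => by ring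

omit [Fintype μ] in
theorem dv_smul_one (y : σ → K) (v : σ) (P : MvPolynomial σ K) :
    dv y v (P • (1 : Matrix μ μ (MvPolynomial σ K))) =
      MvPolynomial.eval y (MvPolynomial.pderiv v P) • (1 : Matrix μ μ K) := by
  ext a b
  simp only [dv, map_apply, Matrix.smul_apply, smul_eq_mul]
  by_cases hab : a = b
  · subst hab
    simp
  · simp [one_apply_ne hab]

omit [Fintype μ] in
theorem ev_smul_one (y : σ → K) (P : MvPolynomial σ K) :
    ev y (P • (1 : Matrix μ μ (MvPolynomial σ K))) =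
      MvPolynomial.eval y P • (1 : Matrix μ μ K) := by
  ext a b
  simp only [ev, map_apply, Matrix.smul_apply, smul_eq_mul]
  by_cases hab : a = b
  · subst hab
    simp
  · simp [one_apply_ne hab]

/-- a matrix, its Pfaffian adjugate and its Pfaffian -/
structure PD (A B : Matrix μ μ (MvPolynomial σ K)) (P : MvPolynomial σ K) : Prop where
  skA : A.transpose = -A
  skB : B.transpose = -B
  AB : A * B = P • (1 : Matrix μ μ (MvPolynomial σ K))
  BA : B * A = P • (1 : Matrix μ μ (MvPolynomial σ K))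
  der : ∀ v, 2 * MvPolynomial.pderiv v P = (B * A.map (MvPolynomial.pderiv v)).trace

namespace PD

variable {A B : Matrix μ μ (MvPolynomial σ K)} {P : MvPolynomial σ K}

theorem tr1 (H : PD A B P) (y : σ → K) (v : σ) :
    (ev y B * dv y v A).trace = 2 * MvPolynomial.eval y (MvPolynomial.pderiv v P) := by
  have h := congrArg (MvPolynomial.eval y) (H.der v)
  rw [map_mul, map_ofNat, eval_trace, ev_mul] at h
  exact h.symm

theorem tr2 (H : PD A B P) (y : σ → K) (j v : σ) :
    (dv y j B * dv y v A).trace + (ev y B * ddv y j v A).trace =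
      2 * MvPolynomial.eval y (MvPolynomial.pderiv j (MvPolynomial.pderiv v P)) := by
  have h := congrArg (fun p => MvPolynomial.eval y (MvPolynomial.pderiv j p)) (H.der v)
  rw [Derivation.leibniz, derivation_trace_mul] at h
  have h2 : MvPolynomial.pderiv j (2 : MvPolynomial σ K) = 0 := by
    have := MvPolynomial.pderiv_C (R := K) (i := j) (a := 2)
    rwa [map_ofNat] at this
  rw [h2, smul_zero, add_zero, smul_eq_mul, map_mul, map_ofNat, map_add, eval_trace, eval_trace,
    ev_mul, ev_mul] at h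
  exact h.symm

end PD

omit [DecidableEq ν] in
/-- linearised system at a nondegenerate critical point: only the zero solution -/
theorem plin_zero [CharZero K] {A B : Matrix μ μ (MvPolynomial (Option ν) K)}
    {P : MvPolynomial (Option ν) K} (H : PD A B P)
    (y : Option ν → K) (k h w1 w2 : μ → K) (c : K)
    (hH : ∀ u : ν → K, (∀ v, ∑ j, MvPolynomial.eval y
      (MvPolynomial.pderiv (some j) (MvPolynomial.pderiv (some v) P)) * u j = 0) → u = 0)
    (hKB : KB (ev y A) k h) (hB : ev y B = c • (vecMulVec h k - vecMulVec k h))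
    (hL : ∀ v, k ⬝ᵥ (dv y (some v) A *ᵥ h) = 0) (hT : k ⬝ᵥ (dv y none A *ᵥ h) = 1)
    (hw1 : w1 ⬝ᵥ k = 1) (hw2 : w2 ⬝ᵥ k = 0) (hw3 : w1 ⬝ᵥ h = 0) (hw4 : w2 ⬝ᵥ h ≠ 0)
    (u : Option ν → K) (s0 s1 s2 : K) (k' h' : μ → K)
    (e1 : (∑ v, u v • dv y v A) *ᵥ k + ev y A *ᵥ k' = s0 • w1 + s1 • w2)
    (e2 : (∑ v, u v • dv y v A) *ᵥ h + ev y A *ᵥ h' = s2 • w2)
    (e3 : ∀ v, k' ⬝ᵥ (dv y (some v) A *ᵥ h) + k ⬝ᵥ (dv y (some v) A *ᵥ h') +
      k ⬝ᵥ ((∑ j, u j • ddv y j (some v) A) *ᵥ h) = 0)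
    (e4 : k' ⬝ᵥ (dv y none A *ᵥ h) + k ⬝ᵥ (dv y none A *ᵥ h') +
      k ⬝ᵥ ((∑ j, u j • ddv y j none A) *ᵥ h) = 0)
    (e5 : w1 ⬝ᵥ k' = 0) (e6 : w2 ⬝ᵥ k' = 0) (e7 : w1 ⬝ᵥ h' = 0) :
    u = 0 ∧ s0 = 0 ∧ s1 = 0 ∧ s2 = 0 ∧ k' = 0 ∧ h' = 0 := by
  obtain ⟨hk, hh, hsp, hli⟩ := id hKB
  set A0 := ev y A with hA0
  set A1 := ∑ v, u v • dv y v A with hA1
  have skA0 : A0.transpose = -A0 := ev_skew H.skA y
  have skA1 : A1.transpose = -A1 := sum_skew _ _ _ fun v => dv_skew H.skA y v
  have hkA : ∀ z, k ⬝ᵥ (A0 *ᵥ z) = 0 := by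
    intro z
    rw [skew_dot skA0, hk, dotProduct_zero, neg_zero]
  have hhA : ∀ z, h ⬝ᵥ (A0 *ᵥ z) = 0 := by
    intro z
    rw [skew_dot skA0, hh, dotProduct_zero, neg_zero]
  have hsum : k ⬝ᵥ (A1 *ᵥ h) = u none := by
    rw [hA1, Fintype.sum_option, add_mulVec, dotProduct_add, smul_mulVec, dotProduct_smul, hT,
      sum_mulVec, dotProduct_sum, Finset.sum_eq_zero, add_zero, smul_eq_mul, mul_one]
    intro v _
    rw [smul_mulVec, dotProduct_smul, hL, smul_zero]
  -- the slack variables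
  have hs0 : s0 = 0 := by
    have := congrArg (fun z => k ⬝ᵥ z) e1
    simp only [dotProduct_add, dotProduct_smul, hkA, skew_dot_self skA1, smul_eq_mul, add_zero,
      dotProduct_comm k w1, dotProduct_comm k w2, hw1, hw2, mul_one, mul_zero] at this
    exact this.symm
  have hs2 : s2 = 0 := by
    have := congrArg (fun z => h ⬝ᵥ z) e2
    simp only [dotProduct_add, dotProduct_smul, hhA, skew_dot_self skA1, smul_eq_mul, add_zero,
      dotProduct_comm h w2] at this
    exact (mul_eq_zero.1 this.symm).resolve_right hw4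
  have hu : u none = 0 := by
    have := congrArg (fun z => k ⬝ᵥ z) e2
    simp only [dotProduct_add, hkA, hsum, hs2, zero_smul, add_zero, dotProduct_zero] at this
    exact this
  rw [hu] at hsum
  have hs1 : s1 = 0 := by
    have := congrArg (fun z => h ⬝ᵥ z) e1
    simp only [dotProduct_add, dotProduct_smul, hhA, skew_dot skA1 h k, hsum, smul_eq_mul, add_zero,
      dotProduct_comm h w2, hs0, zero_mul, zero_add, neg_zero] at this
    exact (mul_eq_zero.1 this.symm).resolve_right hw4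
  subst hs0 hs1 hs2
  rw [zero_smul, zero_smul, add_zero] at e1
  rw [zero_smul] at e2
  -- the derivative of the Pfaffian adjugate
  set D := ∑ v, u v • dv y v B with hD
  have skD : D.transpose = -D := sum_skew _ _ _ fun v => dv_skew H.skB y v
  have hAD : A1 * ev y B + A0 * D = 0 := by
    have h1 : ∀ v, dv y v A * ev y B + A0 * dv y v B =
        MvPolynomial.eval y (MvPolynomial.pderiv v P) • (1 : Matrix μ μ K) := by
      intro v
      rw [hA0, ← dv_mul, H.AB, dv_smul_one]
    have h2 : A1 * ev y B + A0 * D = ∑ v, u v • (dv y v A * ev y B + A0 * dv y v B) := by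
      rw [hA1, hD, Matrix.sum_mul, Matrix.mul_sum, ← Finset.sum_add_distrib]
      refine Finset.sum_congr rfl fun v _ => ?_
      rw [smul_add, Matrix.smul_mul, Matrix.mul_smul]
    have h3 : ∀ v, 2 * MvPolynomial.eval y (MvPolynomial.pderiv v P) =
        2 * (c * (k ⬝ᵥ (dv y v A *ᵥ h))) := by
      intro v
      rw [← H.tr1, hB, Matrix.smul_mul, trace_smul, Matrix.sub_mul, trace_sub, tr_vv, tr_vv,
        skew_dot (dv_skew H.skA y v) h k, smul_eq_mul]
      ring
    have h4 : ∀ v, MvPolynomial.eval y (MvPolynomial.pderiv v P) =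
        c * (k ⬝ᵥ (dv y v A *ᵥ h)) := fun v => mul_left_cancel₀ two_ne_zero (h3 v)
    rw [h2]
    refine Finset.sum_eq_zero fun v _ => ?_
    rw [h1, h4]
    rcases v with _ | v
    · rw [hu, zero_smul]
    · rw [hL, mul_zero, zero_smul, smul_zero]
  set W := c • ((vecMulVec h' k + vecMulVec h k') - (vecMulVec k' h + vecMulVec k h')) with hW
  have skW : W.transpose = -W := by
    rw [hW]
    ext i j
    simp only [transpose_apply, Matrix.smul_apply, Matrix.sub_apply, Matrix.add_apply,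
      Matrix.neg_apply, vecMulVec_apply, smul_eq_mul]
    ring
  have hAW : A0 * W = A0 * D := by
    have h1 : A0 *ᵥ k' = -(A1 *ᵥ k) := eq_neg_of_add_eq_zero_right e1
    have h2 : A0 *ᵥ h' = -(A1 *ᵥ h) := eq_neg_of_add_eq_zero_right e2
    have h3 : A0 * D = -(A1 * ev y B) := eq_neg_of_add_eq_zero_right hAD
    rw [h3, hB, hW, Matrix.mul_smul, Matrix.mul_smul, Matrix.mul_sub, Matrix.mul_sub, Matrix.mul_add,
      Matrix.mul_add, mul_vecMulVec, mul_vecMulVec, mul_vecMulVec, mul_vecMulVec, mul_vecMulVec,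
      mul_vecMulVec, hk, hh, h1, h2, zero_vecMulVec, zero_vecMulVec, neg_vecMulVec, neg_vecMulVec,
      add_zero, add_zero, ← smul_neg]
    congr 1
    abel
  obtain ⟨g, hg⟩ := hKB.skew_form (G := D - W) skA0
    (by rw [transpose_sub, skD, skW]; abel) (by rw [Matrix.mul_sub, hAW, sub_self])
  -- Hessian
  have hx' : (fun v => u (some v)) = 0 := by
    apply hH
    intro v
    have skv := dv_skew H.skA y (some v)
    have h0 : ∀ j, (dv y j B * dv y (some v) A).trace + (ev y B * ddv y j (some v) A).trace =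
      2 * MvPolynomial.eval y (MvPolynomial.pderiv j (MvPolynomial.pderiv (some v) P)) :=
      fun j => H.tr2 y j (some v)
    have h1 : (D * dv y (some v) A).trace + (ev y B * ∑ j, u j • ddv y j (some v) A).trace =
        2 * ∑ j, MvPolynomial.eval y (MvPolynomial.pderiv j (MvPolynomial.pderiv (some v) P)) *
          u j := by
      rw [hD, Matrix.sum_mul, Matrix.mul_sum, trace_sum, trace_sum, ← Finset.sum_add_distrib,
        Finset.mul_sum]
      refine Finset.sum_congr rfl fun j _ => ?_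
      rw [Matrix.smul_mul, Matrix.mul_smul, trace_smul, trace_smul, smul_eq_mul, smul_eq_mul,
        ← mul_add, h0]
      ring
    have h2 : D = W + g • (vecMulVec k h - vecMulVec h k) := by rw [← hg, add_sub_cancel]
    have sk2 : (∑ j, u j • ddv y j (some v) A).transpose =
        -∑ j, u j • ddv y j (some v) A := sum_skew _ _ _ fun j => ddv_skew H.skA y j (some v)
    have h3 : (D * dv y (some v) A).trace = 2 * c *
        (k' ⬝ᵥ (dv y (some v) A *ᵥ h) + k ⬝ᵥ (dv y (some v) A *ᵥ h')) := by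
      rw [h2, Matrix.add_mul, trace_add, hW, Matrix.smul_mul, Matrix.smul_mul, trace_smul,
        trace_smul, Matrix.sub_mul, Matrix.sub_mul, Matrix.add_mul, Matrix.add_mul, trace_sub,
        trace_sub, trace_add, trace_add, tr_vv, tr_vv, tr_vv, tr_vv, tr_vv, tr_vv,
        skew_dot skv h k, skew_dot skv h k', skew_dot skv h' k, hL]
      simp only [smul_eq_mul]
      ring
    have h4 : (ev y B * ∑ j, u j • ddv y j (some v) A).trace = 2 * c *
        (k ⬝ᵥ ((∑ j, u j • ddv y j (some v) A) *ᵥ h)) := by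
      rw [hB, Matrix.smul_mul, trace_smul, Matrix.sub_mul, trace_sub, tr_vv, tr_vv,
        skew_dot sk2 h k, smul_eq_mul]
      ring
    rw [h3, h4, ← mul_add, e3 v, mul_zero, Fintype.sum_option, hu, mul_zero, zero_add] at h1
    exact (mul_eq_zero.1 h1.symm).resolve_left two_ne_zero
  have hu0 : u = 0 := by
    funext o
    rcases o with _ | v
    · exact hu
    · exact congrFun hx' v
  have hA10 : A1 = 0 := by
    rw [hA1, hu0]
    simp
  rw [hA10, zero_mulVec, zero_add] at e1 e2
  obtain ⟨a, b, hab⟩ := hsp k' e1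
  have ha : a = 0 := by
    rw [hab, dotProduct_add, dotProduct_smul, dotProduct_smul, hw1, hw3, smul_eq_mul, smul_eq_mul,
      mul_one, mul_zero, add_zero] at e5
    exact e5
  have hb : b = 0 := by
    rw [hab, dotProduct_add, dotProduct_smul, dotProduct_smul, hw2, smul_eq_mul, smul_eq_mul,
      mul_zero, zero_add] at e6
    exact (mul_eq_zero.1 e6).resolve_right hw4
  have hk'0 : k' = 0 := by rw [hab, ha, hb, zero_smul, zero_smul, add_zero]
  obtain ⟨a', b', hab'⟩ := hsp h' e2
  have ha' : a' = 0 := by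
    rw [hab', dotProduct_add, dotProduct_smul, dotProduct_smul, hw1, hw3, smul_eq_mul, smul_eq_mul,
      mul_one, mul_zero, add_zero] at e7
    exact e7
  have hb' : b' = 0 := by
    rw [hk'0, hab', ha', hu0, zero_smul, zero_add, mulVec_smul, dotProduct_smul, hT] at e4
    simpa using e4
  exact ⟨hu0, rfl, rfl, rfl, hk'0, by rw [hab', ha', hb', zero_smul, zero_smul, add_zero]⟩

end Pool.CD
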