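import Pool.Agent.Helper97.CD.Crit

/-!
The upper bound: if `det A = G`, `A` an `m × m` matrix of polynomials of degree at most `e + 1` in
`y : Option ν → K`, `n = |ν|`, then the coordinate `y none` has at most
`(exp 1 * (4 (e + 1) m / (n + 2) + e)) ^ (n + 2)` nondegenerate critical points on `G = 0`.
-/
namespace Pool.CD
open Finset Matrix Bez

variable {K : Type*} [Field K] {μ ν : Type*} [Fintype μ] [DecidableEq μ] [Fintype ν] [DecidableEq ν]

/-- the embedding of the variables -/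
def em (o : Option ν) : Option (Option ν) ⊕ (μ ⊕ μ) := Sum.inl (some o)

/-- the system; `none` of the first kind of variables is auxiliary -/
noncomputable def sys (A : Matrix μ μ (MvPolynomial (Option ν) K)) (w : μ → K) :
    (μ ⊕ μ) ⊕ Option (Option ν) → MvPolynomial (Option (Option ν) ⊕ (μ ⊕ μ)) K
  | Sum.inl (Sum.inl a) => ∑ b, MvPolynomial.rename (em (μ := μ)) (A a b) *
      MvPolynomial.X (Sum.inr (Sum.inl b))
  | Sum.inl (Sum.inr b) => (∑ a, MvPolynomial.X (Sum.inr (Sum.inr a)) *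
      MvPolynomial.rename (em (μ := μ)) (A a b)) - MvPolynomial.X (Sum.inl none) * MvPolynomial.C (w b)
  | Sum.inr none => (∑ b, MvPolynomial.C (w b) * MvPolynomial.X (Sum.inr (Sum.inl b))) - MvPolynomial.C 1
  | Sum.inr (some o) => (∑ a, ∑ b, MvPolynomial.rename (em (μ := μ)) (MvPolynomial.pderiv o (A a b)) *
      (MvPolynomial.X (Sum.inr (Sum.inr a)) * MvPolynomial.X (Sum.inr (Sum.inl b)))) -
        MvPolynomial.C (o.elim 1 fun _ => 0)

/-- degree of the renamed polynomials -/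
theorem rename_mem {e : ℕ} (p : MvPolynomial (Option ν) K) (hp : p.totalDegree ≤ e) :
    MvPolynomial.rename (em (μ := μ)) p ∈ Wb K (Option (Option ν)) (μ ⊕ μ) e 0 := by
  classical
  rw [p.as_sum, map_sum]
  refine Submodule.sum_mem _ fun d hd => ?_
  rw [MvPolynomial.rename_monomial, MvPolynomial.monomial_eq]
  have h1 : (MvPolynomial.C (MvPolynomial.coeff d p) : MvPolynomial (Option (Option ν) ⊕ (μ ⊕ μ)) K) ∈
      Wb K (Option (Option ν)) (μ ⊕ μ) 0 0 := Wb_C _
  have h2 : (Finsupp.mapDomain (em (μ := μ)) d).prod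
      (fun n k => (MvPolynomial.X n : MvPolynomial (Option (Option ν) ⊕ (μ ⊕ μ)) K) ^ k) =
      ∏ o : Option ν, (MvPolynomial.X (Sum.inl (some o))) ^ d o := by
    rw [Finsupp.prod_mapDomain_index_inj (by
      intro a b hab
      simpa [em] using hab)]
    rw [Finsupp.prod_fintype _ _ (fun _ => pow_zero _)]
    rfl
  rw [h2]
  have h3 := Wb_prod (K := K) (s1 := Option (Option ν)) (s2 := μ ⊕ μ) (univ : Finset (Option ν))
    (d1 := fun o => d o * 1) (d2 := fun o => d o * 0)
    (f := fun o => (MvPolynomial.X (Sum.inl (some o))) ^ d o) fun o _ => Wb_pow (Wb_Xl (some o)) _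
  refine Wb_mono ?_ ?_ (Wb_mul h1 h3)
  · simp only [mul_one, zero_add]
    have h4 := (MvPolynomial.le_totalDegree hd).trans hp
    rwa [Finsupp.sum_fintype _ _ (fun _ => rfl)] at h4
  · simp

theorem sys_mem1 {e : ℕ} (A : Matrix μ μ (MvPolynomial (Option ν) K))
    (hA : ∀ a b, (A a b).totalDegree ≤ e + 1) (w : μ → K) (i : μ ⊕ μ) :
    sys A w (Sum.inl i) ∈ Wb K (Option (Option ν)) (μ ⊕ μ) (e + 1) 1 := by
  rcases i with a | b
  · refine Submodule.sum_mem _ fun b _ => ?_
    exact Wb_mul (d1 := e + 1) (d2 := 0) (e1 := 0) (e2 := 1) (rename_mem _ (hA a b)) (Wb_Xr _)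
  · refine Submodule.sub_mem _ (Submodule.sum_mem _ fun a _ => ?_) ?_
    · have := Wb_mul (d1 := 0) (d2 := 1) (e1 := e + 1) (e2 := 0) (Wb_Xr (Sum.inr a))
        (rename_mem (μ := μ) _ (hA a b))
      rwa [zero_add, add_zero] at this
    · exact Wb_mono (by omega) (Nat.zero_le _) (Wb_mul (d1 := 1) (d2 := 0) (e1 := 0) (e2 := 0)
        (Wb_Xl _) (Wb_C _))

theorem totalDegree_pderiv_le {σ : Type*} (o : σ) (p : MvPolynomial σ K) (e : ℕ)
    (hp : p.totalDegree ≤ e + 1) : (MvPolynomial.pderiv o p).totalDegree ≤ e := by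
  classical
  rw [p.as_sum, map_sum]
  refine MvPolynomial.totalDegree_finsetSum_le fun d hd => ?_
  rw [MvPolynomial.pderiv_monomial]
  by_cases h0 : d o = 0
  · rw [h0]; simp
  · refine (MvPolynomial.totalDegree_monomial_le _ _).trans ?_
    have h1 := (MvPolynomial.le_totalDegree hd).trans hp
    have h2 : Finsupp.single o 1 ≤ d := by
      rw [Finsupp.single_le_iff]; omega
    have h3 : (d - Finsupp.single o 1).degree + 1 = d.degree := by
      conv_rhs => rw [← tsub_add_cancel_of_le h2]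
      rw [map_add, Finsupp.degree_single]
    have h4 : (d - Finsupp.single o 1).sum (fun _ => id) = (d - Finsupp.single o 1).degree := rfl
    have h5 : d.sum (fun _ e => e) = d.degree := rfl
    rw [h5] at h1
    change (d - Finsupp.single o 1).degree ≤ e
    omega

theorem sys_mem2 {e : ℕ} (A : Matrix μ μ (MvPolynomial (Option ν) K))
    (hA : ∀ a b, (A a b).totalDegree ≤ e + 1) (w : μ → K) (j : Option (Option ν)) :
    sys A w (Sum.inr j) ∈ Wb K (Option (Option ν)) (μ ⊕ μ) e 2 := by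
  rcases j with _ | o
  · refine Submodule.sub_mem _ (Submodule.sum_mem _ fun b _ => ?_)
      (Wb_mono (Nat.zero_le _) (Nat.zero_le _) (Wb_C _))
    exact Wb_mono (Nat.zero_le _) (by norm_num) (Wb_mul (d1 := 0) (d2 := 0) (e1 := 0) (e2 := 1)
      (Wb_C _) (Wb_Xr _))
  · refine Submodule.sub_mem _ (Submodule.sum_mem _ fun a _ => Submodule.sum_mem _ fun b _ => ?_)
      (Wb_mono (Nat.zero_le _) (Nat.zero_le _) (Wb_C _))
    have h1 := Wb_mul (d1 := e) (d2 := 0) (e1 := 0) (e2 := 2)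
      (rename_mem (μ := μ) _ (totalDegree_pderiv_le o _ e (hA a b)))
      (Wb_mul (d1 := 0) (d2 := 1) (e1 := 0) (e2 := 1) (Wb_Xr (Sum.inr a)) (Wb_Xr (Sum.inl b)))
    rwa [add_zero, zero_add] at h1

theorem eval_ren (y : Option ν → K) (k h : μ → K) (p : MvPolynomial (Option ν) K) :
    MvPolynomial.eval (Bez.pt y k h) (MvPolynomial.rename (em (μ := μ)) p) =
      MvPolynomial.eval y p := by
  rw [MvPolynomial.eval_rename]
  rfl

theorem eval_sys (A : Matrix μ μ (MvPolynomial (Option ν) K)) (w : μ → K)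
    (y : Option ν → K) (k h : μ → K) (hk : ev y A *ᵥ k = 0) (hh : h ᵥ* ev y A = 0)
    (hL : ∀ v, h ⬝ᵥ (dv y (some v) A *ᵥ k) = 0) (hT : h ⬝ᵥ (dv y none A *ᵥ k) = 1)
    (hw : w ⬝ᵥ k = 1) (i : (μ ⊕ μ) ⊕ Option (Option ν)) :
    MvPolynomial.eval (Bez.pt y k h) (sys A w i) = 0 := by
  have hq : ∀ o, MvPolynomial.eval (Bez.pt y k h) (∑ a, ∑ b,
      MvPolynomial.rename (em (μ := μ)) (MvPolynomial.pderiv o (A a b)) *
      (MvPolynomial.X (Sum.inr (Sum.inr a)) * MvPolynomial.X (Sum.inr (Sum.inl b)))) =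
        h ⬝ᵥ (dv y o A *ᵥ k) := by
    intro o
    simp only [map_sum, map_mul, eval_ren, MvPolynomial.eval_X, Bez.pt, dotProduct, mulVec,
      Finset.mul_sum, dv, map_apply]
    exact Finset.sum_congr rfl fun a _ => Finset.sum_congr rfl fun b _ => by ring
  rcases i with (a | b) | (_ | _ | v)
  · simp only [sys, map_sum, map_mul, eval_ren, MvPolynomial.eval_X]
    exact congrFun hk a
  · simp only [sys, map_sub, map_sum, map_mul, eval_ren, MvPolynomial.eval_X]
    have := congrFun hh b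
    simp only [vecMul, dotProduct, Pi.zero_apply] at this
    simp only [Bez.pt, zero_mul, sub_zero]
    exact this
  · simp only [sys, map_sub, map_sum, map_mul, MvPolynomial.eval_X, MvPolynomial.eval_C, Bez.pt]
    exact sub_eq_zero.2 hw
  · simp only [sys, map_sub]
    rw [hq, hT, MvPolynomial.eval_C]
    simp
  · simp only [sys, map_sub]
    rw [hq, hL]
    simp

/-- derivative of a renamed polynomial along a line -/
theorem der_ren (P V : Option (Option ν) ⊕ (μ ⊕ μ) → K) (p : MvPolynomial (Option ν) K) :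
    (Polynomial.derivative (ln P V (MvPolynomial.rename (em (μ := μ)) p))).eval 0 =
      ∑ o, V (Sum.inl (some o)) * MvPolynomial.eval (fun o => P (Sum.inl (some o)))
        (MvPolynomial.pderiv o p) := by
  have h : ln P V (MvPolynomial.rename (em (μ := μ)) p) =
      ln (fun o => P (Sum.inl (some o))) (fun o => V (Sum.inl (some o))) p := by
    unfold ln
    rw [MvPolynomial.aeval_rename]
    rfl
  rw [h, ln_deriv]
  exact Finset.sum_congr rfl fun o _ => mul_comm _ _

/-- surjectivity of the Jacobian of the system at a nondegenerate critical point -/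
theorem sys_surj (A : Matrix μ μ (MvPolynomial (Option ν) K))
    (y : Option ν → K) (k h w : μ → K) (c : K)
    (hH : ∀ u : ν → K, (∀ v, ∑ j, MvPolynomial.eval y
      (MvPolynomial.pderiv (some j) (MvPolynomial.pderiv (some v) A.det)) * u j = 0) → u = 0)
    (hadj : (ev y A).adjugate = c • vecMulVec k h)
    (hk : ev y A *ᵥ k = 0) (hh : h ᵥ* ev y A = 0)
    (hker : ∀ k', ev y A *ᵥ k' = 0 → ∃ a : K, k' = a • k)
    (hker' : ∀ h', h' ᵥ* ev y A = 0 → ∃ b : K, h' = b • h)
    (hL : ∀ v, h ⬝ᵥ (dv y (some v) A *ᵥ k) = 0) (hT : h ⬝ᵥ (dv y none A *ᵥ k) = 1)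
    (hw : w ⬝ᵥ k = 1) :
    Function.Surjective (jac (sys A w) (Bez.pt y k h)) := by
  refine jac_surj_of_inj _ _ ?_ ?_
  · simp only [Fintype.card_sum, Fintype.card_option]
    ring
  intro V hV
  have hV' : ∀ i, (Polynomial.derivative (ln (Bez.pt y k h) V (sys A w i))).eval 0 = 0 := by
    intro i
    rw [← jac_eq_ln]
    exact congrFun hV i
  have hpt : (fun o => Bez.pt y k h (Sum.inl (some o))) = y := rfl
  have hq : ∀ o, (Polynomial.derivative (ln (Bez.pt y k h) V (∑ a, ∑ b,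
      MvPolynomial.rename (em (μ := μ)) (MvPolynomial.pderiv o (A a b)) *
      (MvPolynomial.X (Sum.inr (Sum.inr a)) * MvPolynomial.X (Sum.inr (Sum.inl b)))))).eval 0 =
      (fun a => V (Sum.inr (Sum.inr a))) ⬝ᵥ (dv y o A *ᵥ k) +
        h ⬝ᵥ (dv y o A *ᵥ (fun b => V (Sum.inr (Sum.inl b)))) +
        h ⬝ᵥ ((∑ j, V (Sum.inl (some j)) • ddv y j o A) *ᵥ k) := by
    intro o
    simp only [der_sum, der_mul, der_X, der_ren, hpt]
    simp only [eval_ren, MvPolynomial.eval_X, map_mul, Bez.pt,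
      dotProduct, mulVec, Finset.mul_sum, ← Finset.sum_add_distrib, dv, ddv, map_apply,
      Matrix.sum_apply, Matrix.smul_apply, smul_eq_mul]
    refine Finset.sum_congr rfl fun a _ => Finset.sum_congr rfl fun b _ => ?_
    ring
  have key := lin_zero A y k h w c hH hadj hk hh hker hker' hL hT hw
    (fun o => V (Sum.inl (some o))) (V (Sum.inl none))
    (fun b => V (Sum.inr (Sum.inl b))) (fun a => V (Sum.inr (Sum.inr a))) ?_ ?_ ?_ ?_ ?_
  · obtain ⟨z1, z3, z4, z5⟩ := key
    funext i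
    rcases i with (_ | o) | (b | a)
    · exact z3
    · exact congrFun z1 o
    · exact congrFun z4 b
    · exact congrFun z5 a
  · ext a
    have := hV' (Sum.inl (Sum.inl a))
    simp only [sys, der_sum, der_mul, der_ren, der_X, eval_ren, MvPolynomial.eval_X, hpt,
      Finset.sum_add_distrib] at this
    simp only [Pi.add_apply, mulVec, dotProduct, Pi.zero_apply, Matrix.sum_apply, Matrix.smul_apply,
      smul_eq_mul, dv, map_apply]
    exact this
  · ext b
    have := hV' (Sum.inl (Sum.inr b))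
    simp only [sys, der_sub, der_sum, der_mul, der_ren, der_X, der_C, eval_ren, MvPolynomial.eval_X,
      MvPolynomial.eval_C, hpt, Finset.sum_add_distrib, mul_zero, add_zero] at this
    simp only [Pi.add_apply, vecMul, dotProduct, Pi.smul_apply, smul_eq_mul, Matrix.sum_apply,
      Matrix.smul_apply, dv, map_apply]
    rw [add_comm]
    exact sub_eq_zero.1 this
  · intro v
    have := hV' (Sum.inr (some (some v)))
    simp only [sys, der_sub] at this
    rw [hq, der_C, sub_zero] at this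
    exact this
  · have := hV' (Sum.inr none)
    simp only [sys, der_sub, der_sum, der_mul, der_X, der_C, MvPolynomial.eval_C, zero_mul, zero_add,
      sub_zero] at this
    simp only [dotProduct]
    exact this
  · have := hV' (Sum.inr (some none))
    simp only [sys, der_sub] at this
    rw [hq, der_C, sub_zero] at this
    exact this

/-- the number of nondegenerate critical points of `y none` on `det A = 0` -/
theorem crit_card [Infinite K] {e : ℕ} (A : Matrix μ μ (MvPolynomial (Option ν) K))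
    (hA : ∀ a b, (A a b).totalDegree ≤ e + 1)
    {ι : Type*} [Fintype ι] (y : ι → Option ν → K) (hy : Function.Injective y)
    (h0 : ∀ p, MvPolynomial.eval (y p) A.det = 0)
    (hg : ∀ p v, MvPolynomial.eval (y p) (MvPolynomial.pderiv (some v) A.det) = 0)
    (hn : ∀ p, MvPolynomial.eval (y p) (MvPolynomial.pderiv none A.det) ≠ 0)
    (hH : ∀ p, ∀ u : ν → K, (∀ v, ∑ j, MvPolynomial.eval (y p)
      (MvPolynomial.pderiv (some j) (MvPolynomial.pderiv (some v) A.det)) * u j = 0) → u = 0)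
    (α β : ℕ) :
    Fintype.card ι * (α ^ (2 * Fintype.card μ) * β ^ (Fintype.card ν + 2)) ≤
      ((e + 1) * α + e * β) ^ (Fintype.card ν + 2) * (α + 2 * β) ^ (2 * Fintype.card μ) := by
  classical
  set c : ι → K := fun p => MvPolynomial.eval (y p) (MvPolynomial.pderiv none A.det) with hc
  have hs : ∀ p, ∃ k h : μ → K, (ev (y p) A).adjugate = vecMulVec k h ∧
      ev (y p) A *ᵥ k = 0 ∧ h ᵥ* ev (y p) A = 0 ∧
      (∀ k', ev (y p) A *ᵥ k' = 0 → ∃ a : K, k' = a • k) ∧
      (∀ h', h' ᵥ* ev (y p) A = 0 → ∃ b : K, h' = b • h) ∧ k ≠ 0 := by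
    intro p
    refine kernel_struct _ ((c p)⁻¹ • dv (y p) none A) ?_ ?_
    · rw [ev_det, h0]
    · rw [Matrix.mul_smul, trace_smul, tr_D, smul_eq_mul]
      exact inv_mul_cancel₀ (hn p)
  choose k h hadj hk hh hker hker' hk0 using hs
  obtain ⟨w, hw⟩ := exists_generic k hk0
  have hcn : ∀ p, c p ≠ 0 := hn
  -- normalisation
  set k1 : ι → μ → K := fun p => (w ⬝ᵥ k p)⁻¹ • k p with hk1
  set h1 : ι → μ → K := fun p => ((c p)⁻¹ * (w ⬝ᵥ k p)) • h p with hh1
  have hadj1 : ∀ p, (ev (y p) A).adjugate = c p • vecMulVec (k1 p) (h1 p) := by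
    intro p
    rw [hadj, hk1, hh1]
    ext i j
    simp only [vecMulVec_apply, Pi.smul_apply, smul_eq_mul, Matrix.smul_apply]
    have := hw p
    have := hcn p
    field_simp
  have hkk : ∀ p, ev (y p) A *ᵥ k1 p = 0 := by
    intro p
    rw [hk1]
    simp only [mulVec_smul, hk, smul_zero]
  have hhh : ∀ p, h1 p ᵥ* ev (y p) A = 0 := by
    intro p
    rw [hh1]
    simp only [smul_vecMul, hh, smul_zero]
  have hkr : ∀ p, ∀ k', ev (y p) A *ᵥ k' = 0 → ∃ a : K, k' = a • k1 p := by
    intro p k' hk'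
    obtain ⟨a, ha⟩ := hker p k' hk'
    refine ⟨a * (w ⬝ᵥ k p), ?_⟩
    rw [hk1]
    simp only [smul_smul]
    rw [mul_assoc, mul_inv_cancel₀ (hw p), mul_one]
    exact ha
  have hkr' : ∀ p, ∀ h', h' ᵥ* ev (y p) A = 0 → ∃ b : K, h' = b • h1 p := by
    intro p h' hh'
    obtain ⟨b, hb⟩ := hker' p h' hh'
    refine ⟨b * ((c p)⁻¹ * (w ⬝ᵥ k p))⁻¹, ?_⟩
    rw [hh1]
    simp only [smul_smul]
    rw [mul_assoc, inv_mul_cancel₀ (mul_ne_zero (inv_ne_zero (hcn p)) (hw p)), mul_one]
    exact hb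
  have hquad : ∀ p (M : Matrix μ μ K), c p * (h1 p ⬝ᵥ (M *ᵥ k1 p)) =
      ((ev (y p) A).adjugate * M).trace := by
    intro p M
    rw [hadj1, Matrix.smul_mul, trace_smul, vecMulVec_mul, trace_vecMulVec, dotProduct_comm (k1 p),
      ← dotProduct_mulVec, smul_eq_mul]
  have hL : ∀ p v, h1 p ⬝ᵥ (dv (y p) (some v) A *ᵥ k1 p) = 0 := by
    intro p v
    have := hquad p (dv (y p) (some v) A)
    rw [tr_D, hg] at this
    exact (mul_eq_zero.1 this).resolve_left (hcn p)
  have hT : ∀ p, h1 p ⬝ᵥ (dv (y p) none A *ᵥ k1 p) = 1 := by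
    intro p
    have := hquad p (dv (y p) none A)
    rw [tr_D] at this
    exact mul_left_cancel₀ (hcn p) (this.trans (mul_one _).symm)
  have hw1 : ∀ p, w ⬝ᵥ k1 p = 1 := by
    intro p
    rw [hk1]
    simp only [dotProduct_smul, smul_eq_mul]
    exact inv_mul_cancel₀ (hw p)
  have hb := Pool.CD.bez e (sys A w) (fun p => Bez.pt (y p) (k1 p) (h1 p)) ?_
    (fun p i => eval_sys A w (y p) (k1 p) (h1 p) (hkk p) (hhh p) (hL p) (hT p) (hw1 p) i)
    (fun p => sys_surj A (y p) (k1 p) (h1 p) w (c p) (hH p) (hadj1 p) (hkk p) (hhh p)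
      (hkr p) (hkr' p) (hL p) (hT p) (hw1 p))
    (sys_mem1 A hA w) (sys_mem2 A hA w) ?_ α β
  · simp only [Fintype.card_sum, Fintype.card_option] at hb
    have e2 : Fintype.card μ + Fintype.card μ = 2 * Fintype.card μ := by ring
    rw [e2, show Fintype.card ν + 1 + 1 = Fintype.card ν + 2 by ring] at hb
    have hpos : 0 < (Fintype.card ν + 2).factorial * (2 * Fintype.card μ).factorial := by positivity
    refine le_of_mul_le_mul_right ?_ hpos
    refine hb.trans (le_of_eq ?_)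
    ring
  · intro p q hpq
    apply hy
    funext o
    exact congrFun hpq (Sum.inl (some o))
  · simp only [Fintype.card_sum, Fintype.card_option]
    ring

/-- numerical consequence -/
theorem num_bound (S m n e : ℕ) (hm : 0 < m) (h : ∀ α β : ℕ,
    S * (α ^ (2 * m) * β ^ (n + 2)) ≤ ((e + 1) * α + e * β) ^ (n + 2) * (α + 2 * β) ^ (2 * m)) :
    (S : ℝ) ≤ (Real.exp 1 * (4 * (e + 1) * m / (n + 2 : ℕ) + e)) ^ (n + 2) := by
  set M := n + 2 with hM
  have h := h (4 * m) M
  have h' : (S : ℝ) * ((4 * m : ℝ) ^ (2 * m) * (M : ℝ) ^ M) ≤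
      (((e : ℝ) + 1) * (4 * m) + e * M) ^ M * (4 * m + 2 * M : ℝ) ^ (2 * m) := by
    exact_mod_cast h
  have hm' : (0 : ℝ) < m := by exact_mod_cast hm
  have hMp : (0 : ℝ) < M := by
    rw [hM]
    positivity
  have e1 : (4 * m + 2 * M : ℝ) ^ (2 * m) = (4 * m : ℝ) ^ (2 * m) * (1 + M / (2 * m : ℝ)) ^ (2 * m) := by
    rw [← mul_pow]
    congr 1
    field_simp
    ring
  have e2 : (1 + M / (2 * m : ℝ)) ^ (2 * m) ≤ Real.exp 1 ^ M := by
    have h3 : (1 + M / (2 * m : ℝ)) ≤ Real.exp (M / (2 * m : ℝ)) := by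
      have := Real.add_one_le_exp (M / (2 * m : ℝ))
      linarith
    calc (1 + M / (2 * m : ℝ)) ^ (2 * m) ≤ (Real.exp (M / (2 * m : ℝ))) ^ (2 * m) := by
          gcongr
      _ = Real.exp M := by
          rw [← Real.exp_nat_mul]
          congr 1
          push_cast
          field_simp
      _ = Real.exp 1 ^ M := by
          rw [← Real.exp_nat_mul, mul_one]
  rw [e1] at h'
  have hpos : (0 : ℝ) < (4 * m : ℝ) ^ (2 * m) := by positivity
  set G : ℝ := ((e : ℝ) + 1) * (4 * m) + e * M with hG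
  have hG0 : 0 ≤ G := by positivity
  have h4 : (S : ℝ) * (M : ℝ) ^ M ≤ G ^ M * (1 + M / (2 * m : ℝ)) ^ (2 * m) := by
    refine le_of_mul_le_mul_left ?_ hpos
    calc (4 * m : ℝ) ^ (2 * m) * ((S : ℝ) * (M : ℝ) ^ M)
        = (S : ℝ) * ((4 * m : ℝ) ^ (2 * m) * (M : ℝ) ^ M) := by ring
      _ ≤ G ^ M * ((4 * m : ℝ) ^ (2 * m) * (1 + M / (2 * m : ℝ)) ^ (2 * m)) := h'
      _ = _ := by ring
  have e3 : Real.exp 1 * (4 * (e + 1) * m / (M : ℝ) + e) = G * Real.exp 1 / M := by
    rw [hG]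
    field_simp
  rw [e3, div_pow, le_div_iff₀ (by positivity)]
  calc (S : ℝ) * (M : ℝ) ^ M ≤ G ^ M * (1 + M / (2 * m : ℝ)) ^ (2 * m) := h4
    _ ≤ G ^ M * Real.exp 1 ^ M := by gcongr
    _ = (G * Real.exp 1) ^ M := by rw [← mul_pow]

end Pool.CD
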