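import Pool.Agent.Helper97.CD.PCrit
import Pool.Agent.Helper97.CD.Sys

/-!
The upper bound: if `A` is an alternating matrix of size `|μ|` of polynomials of degree at most
`e + 1` in `y : Option ν → K`, then the coordinate `y none` has at most
`(exp 1 * (4 (e + 1) |μ| / M + e)) ^ M`, `M = |ν| + 4`, nondegenerate critical points on `pf A = 0`.
-/
set_option autoImplicit false

namespace Pool.CD
open Finset Matrix Bez

variable {K : Type*} [Field K] {μ ν : Type*} [Fintype μ] [DecidableEq μ] [Fintype ν] [DecidableEq ν]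

section gen
variable {τ : Type*} [Fintype τ] [DecidableEq τ]

theorem gder_mul (P V : τ → K) (f g : MvPolynomial τ K) :
    (Polynomial.derivative (ln P V (f * g))).eval 0 =
      (Polynomial.derivative (ln P V f)).eval 0 * MvPolynomial.eval P g +
      MvPolynomial.eval P f * (Polynomial.derivative (ln P V g)).eval 0 := by
  rw [map_mul, Polynomial.derivative_mul, Polynomial.eval_add, Polynomial.eval_mul, Polynomial.eval_mul,
    ln_eval, ln_eval]

theorem gder_X (P V : τ → K) (i : τ) :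
    (Polynomial.derivative (ln P V (MvPolynomial.X i))).eval 0 = V i := by
  simp [ln]

theorem gder_C (P V : τ → K) (c : K) :
    (Polynomial.derivative (ln P V (MvPolynomial.C c))).eval 0 = 0 := by
  simp [ln]

theorem gder_sum {ι : Type*} (s : Finset ι) (P V : τ → K)
    (f : ι → MvPolynomial τ K) :
    (Polynomial.derivative (ln P V (∑ i ∈ s, f i))).eval 0 =
      ∑ i ∈ s, (Polynomial.derivative (ln P V (f i))).eval 0 := by
  rw [map_sum, Polynomial.derivative_sum, Polynomial.eval_finsetSum]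

theorem gder_sub (P V : τ → K) (f g : MvPolynomial τ K) :
    (Polynomial.derivative (ln P V (f - g))).eval 0 =
      (Polynomial.derivative (ln P V f)).eval 0 - (Polynomial.derivative (ln P V g)).eval 0 := by
  rw [map_sub, Polynomial.derivative_sub, Polynomial.eval_sub]

end gen

/-- the variables -/
abbrev VT (μ ν : Type*) := (Fin 3 ⊕ Option ν) ⊕ (μ ⊕ μ)

/-- the embedding of the variables -/
def pem (o : Option ν) : VT μ ν := Sum.inl (Sum.inr o)

/-- the renamed polynomials -/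
noncomputable abbrev ren (p : MvPolynomial (Option ν) K) : MvPolynomial (VT μ ν) K :=
  MvPolynomial.rename (pem (μ := μ)) p

/-- the slack variables -/
noncomputable abbrev XS (i : Fin 3) : MvPolynomial (VT μ ν) K := MvPolynomial.X (Sum.inl (Sum.inl i))

/-- the first kernel vector -/
noncomputable abbrev XK (b : μ) : MvPolynomial (VT μ ν) K := MvPolynomial.X (Sum.inr (Sum.inl b))

/-- the second kernel vector -/
noncomputable abbrev XH (b : μ) : MvPolynomial (VT μ ν) K := MvPolynomial.X (Sum.inr (Sum.inr b))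

/-- the quadratic forms -/
noncomputable def qf (M : Matrix μ μ (MvPolynomial (Option ν) K)) : MvPolynomial (VT μ ν) K :=
  ∑ a, ∑ b, ren (M a b) * (XK a * XH b)

/-- the system -/
noncomputable def psys (A : Matrix μ μ (MvPolynomial (Option ν) K)) (w1 w2 : μ → K) :
    (μ ⊕ μ) ⊕ (Fin 3 ⊕ Option ν) → MvPolynomial (VT μ ν) K
  | Sum.inl (Sum.inl a) => (∑ b, ren (A a b) * XK b) -
      (XS 0 * MvPolynomial.C (w1 a) + XS 1 * MvPolynomial.C (w2 a))
  | Sum.inl (Sum.inr a) => (∑ b, ren (A a b) * XH b) - XS 2 * MvPolynomial.C (w2 a)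
  | Sum.inr (Sum.inl 0) => (∑ b, MvPolynomial.C (w1 b) * XK b) - MvPolynomial.C 1
  | Sum.inr (Sum.inl 1) => ∑ b, MvPolynomial.C (w2 b) * XK b
  | Sum.inr (Sum.inl 2) => ∑ b, MvPolynomial.C (w1 b) * XH b
  | Sum.inr (Sum.inr o) => qf (A.map (MvPolynomial.pderiv o)) - MvPolynomial.C (o.elim 1 fun _ => 0)

/-- the point of the system -/
def ppt (y : Option ν → K) (k h : μ → K) : VT μ ν → K
  | Sum.inl (Sum.inl _) => 0
  | Sum.inl (Sum.inr o) => y o
  | Sum.inr (Sum.inl b) => k b
  | Sum.inr (Sum.inr b) => h b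

/-- degree of the renamed polynomials -/
theorem ren_mem {e : ℕ} (p : MvPolynomial (Option ν) K) (hp : p.totalDegree ≤ e) :
    ren (μ := μ) p ∈ Wb K (Fin 3 ⊕ Option ν) (μ ⊕ μ) e 0 := by
  classical
  unfold ren
  rw [p.as_sum, map_sum]
  refine Submodule.sum_mem _ fun d hd => ?_
  rw [MvPolynomial.rename_monomial, MvPolynomial.monomial_eq]
  have h1 : (MvPolynomial.C (MvPolynomial.coeff d p) : MvPolynomial (VT μ ν) K) ∈
      Wb K (Fin 3 ⊕ Option ν) (μ ⊕ μ) 0 0 := Wb_C _
  have h2 : (Finsupp.mapDomain (pem (μ := μ)) d).prod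
      (fun n k => (MvPolynomial.X n : MvPolynomial (VT μ ν) K) ^ k) =
      ∏ o : Option ν, (MvPolynomial.X (Sum.inl (Sum.inr o))) ^ d o := by
    rw [Finsupp.prod_mapDomain_index_inj (by
      intro a b hab
      simpa [pem] using hab)]
    rw [Finsupp.prod_fintype _ _ (fun _ => pow_zero _)]
    rfl
  rw [h2]
  have h3 := Wb_prod (K := K) (s1 := Fin 3 ⊕ Option ν) (s2 := μ ⊕ μ) (univ : Finset (Option ν))
    (d1 := fun o => d o * 1) (d2 := fun o => d o * 0)
    (f := fun o => (MvPolynomial.X (Sum.inl (Sum.inr o))) ^ d o)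
    fun o _ => Wb_pow (Wb_Xl (Sum.inr o)) _
  refine Wb_mono ?_ ?_ (Wb_mul h1 h3)
  · simp only [mul_one, zero_add]
    have h4 := (MvPolynomial.le_totalDegree hd).trans hp
    rwa [Finsupp.sum_fintype _ _ (fun _ => rfl)] at h4
  · simp

theorem psys_mem1 {e : ℕ} (A : Matrix μ μ (MvPolynomial (Option ν) K))
    (hA : ∀ a b, (A a b).totalDegree ≤ e + 1) (w1 w2 : μ → K) (i : μ ⊕ μ) :
    psys A w1 w2 (Sum.inl i) ∈ Wb K (Fin 3 ⊕ Option ν) (μ ⊕ μ) (e + 1) 1 := by
  have hs : ∀ (i : Fin 3) (c : K), (XS i * MvPolynomial.C c : MvPolynomial (VT μ ν) K) ∈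
      Wb K (Fin 3 ⊕ Option ν) (μ ⊕ μ) (e + 1) 1 := fun i c =>
    Wb_mono (by omega) (Nat.zero_le _) (Wb_mul (d1 := 1) (d2 := 0) (e1 := 0) (e2 := 0)
        (Wb_Xl _) (Wb_C _))
  rcases i with a | a
  · refine Submodule.sub_mem _ (Submodule.sum_mem _ fun b _ => ?_)
      (Submodule.add_mem _ (hs 0 _) (hs 1 _))
    exact Wb_mul (d1 := e + 1) (d2 := 0) (e1 := 0) (e2 := 1) (ren_mem _ (hA a b)) (Wb_Xr _)
  · refine Submodule.sub_mem _ (Submodule.sum_mem _ fun b _ => ?_) (hs 2 _)
    exact Wb_mul (d1 := e + 1) (d2 := 0) (e1 := 0) (e2 := 1) (ren_mem _ (hA a b)) (Wb_Xr _)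

theorem psys_mem2 {e : ℕ} (A : Matrix μ μ (MvPolynomial (Option ν) K))
    (hA : ∀ a b, (A a b).totalDegree ≤ e + 1) (w1 w2 : μ → K) (j : Fin 3 ⊕ Option ν) :
    psys A w1 w2 (Sum.inr j) ∈ Wb K (Fin 3 ⊕ Option ν) (μ ⊕ μ) e 2 := by
  have hc : ∀ c : K, (MvPolynomial.C c : MvPolynomial (VT μ ν) K) ∈
      Wb K (Fin 3 ⊕ Option ν) (μ ⊕ μ) e 2 := fun c =>
    Wb_mono (Nat.zero_le _) (Nat.zero_le _) (Wb_C _)
  have hx : ∀ (c : K) (b : μ ⊕ μ), (MvPolynomial.C c * MvPolynomial.X (Sum.inr b) :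
      MvPolynomial (VT μ ν) K) ∈ Wb K (Fin 3 ⊕ Option ν) (μ ⊕ μ) e 2 := fun c b =>
    Wb_mono (Nat.zero_le _) (by norm_num) (Wb_mul (d1 := 0) (d2 := 0) (e1 := 0) (e2 := 1)
      (Wb_C _) (Wb_Xr _))
  rcases j with i | o
  · fin_cases i
    · exact Submodule.sub_mem _ (Submodule.sum_mem _ fun b _ => hx _ _) (hc _)
    · exact Submodule.sum_mem _ fun b _ => hx _ _
    · exact Submodule.sum_mem _ fun b _ => hx _ _
  · refine Submodule.sub_mem _ (Submodule.sum_mem _ fun a _ => Submodule.sum_mem _ fun b _ => ?_)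
      (hc _)
    have h1 := Wb_mul (d1 := e) (d2 := 0) (e1 := 0) (e2 := 2)
      (ren_mem (μ := μ) _ (totalDegree_pderiv_le o _ e (hA a b)))
      (Wb_mul (d1 := 0) (d2 := 1) (e1 := 0) (e2 := 1) (Wb_Xr (Sum.inl a)) (Wb_Xr (Sum.inr b)))
    rwa [add_zero, zero_add] at h1

theorem eval_ren' (y : Option ν → K) (k h : μ → K) (p : MvPolynomial (Option ν) K) :
    MvPolynomial.eval (ppt y k h) (ren p) = MvPolynomial.eval y p := by
  unfold ren
  rw [MvPolynomial.eval_rename]
  rfl

theorem eval_qf (y : Option ν → K) (k h : μ → K) (M : Matrix μ μ (MvPolynomial (Option ν) K)) :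
    MvPolynomial.eval (ppt y k h) (qf M) = k ⬝ᵥ (ev y M *ᵥ h) := by
  unfold qf
  simp only [map_sum, map_mul, eval_ren', MvPolynomial.eval_X, ppt, dotProduct, mulVec,
    Finset.mul_sum, ev, map_apply]
  exact Finset.sum_congr rfl fun a _ => Finset.sum_congr rfl fun b _ => by ring

theorem eval_psys (A : Matrix μ μ (MvPolynomial (Option ν) K)) (w1 w2 : μ → K)
    (y : Option ν → K) (k h : μ → K) (hk : ev y A *ᵥ k = 0) (hh : ev y A *ᵥ h = 0)
    (hL : ∀ v, k ⬝ᵥ (dv y (some v) A *ᵥ h) = 0) (hT : k ⬝ᵥ (dv y none A *ᵥ h) = 1)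
    (hw1 : w1 ⬝ᵥ k = 1) (hw2 : w2 ⬝ᵥ k = 0) (hw3 : w1 ⬝ᵥ h = 0)
    (i : (μ ⊕ μ) ⊕ (Fin 3 ⊕ Option ν)) :
    MvPolynomial.eval (ppt y k h) (psys A w1 w2 i) = 0 := by
  rcases i with (a | a) | (i | o)
  · simp only [psys, map_sub, map_add, map_sum, map_mul, eval_ren', MvPolynomial.eval_X, ppt,
      zero_mul, add_zero, sub_zero]
    exact congrFun hk a
  · simp only [psys, map_sub, map_sum, map_mul, eval_ren', MvPolynomial.eval_X, ppt,
      zero_mul, sub_zero]
    exact congrFun hh a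
  · fin_cases i
    · have h0 : MvPolynomial.eval (ppt y k h) ((∑ b, MvPolynomial.C (w1 b) * XK b) -
          MvPolynomial.C 1) = 0 := by
        simp only [map_sub, map_sum, map_mul, MvPolynomial.eval_X, MvPolynomial.eval_C, ppt]
        exact sub_eq_zero.2 hw1
      exact h0
    · have h0 : MvPolynomial.eval (ppt y k h) (∑ b, MvPolynomial.C (w2 b) * XK b) = 0 := by
        simp only [map_sum, map_mul, MvPolynomial.eval_X, MvPolynomial.eval_C, ppt]
        exact hw2
      exact h0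
    · have h0 : MvPolynomial.eval (ppt y k h) (∑ b, MvPolynomial.C (w1 b) * XH b) = 0 := by
        simp only [map_sum, map_mul, MvPolynomial.eval_X, MvPolynomial.eval_C, ppt]
        exact hw3
      exact h0
  · simp only [psys, map_sub, eval_qf, MvPolynomial.eval_C]
    rcases o with _ | v
    · exact sub_eq_zero.2 hT
    · simp only [Option.elim_some, sub_zero]
      exact hL v

/-- derivative of a renamed polynomial along a line -/
theorem der_ren' (P V : VT μ ν → K) (p : MvPolynomial (Option ν) K) :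
    (Polynomial.derivative (ln P V (ren p))).eval 0 =
      ∑ o, V (Sum.inl (Sum.inr o)) * MvPolynomial.eval (fun o => P (Sum.inl (Sum.inr o)))
        (MvPolynomial.pderiv o p) := by
  have h : ln P V (ren p) =
      ln (fun o => P (Sum.inl (Sum.inr o))) (fun o => V (Sum.inl (Sum.inr o))) p := by
    unfold ln ren
    rw [MvPolynomial.aeval_rename]
    rfl
  rw [h, ln_deriv]
  exact Finset.sum_congr rfl fun o _ => mul_comm _ _

theorem der_ren2 (y : Option ν → K) (k h : μ → K) (V : VT μ ν → K) (p : MvPolynomial (Option ν) K) :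
    (Polynomial.derivative (ln (ppt y k h) V (ren p))).eval 0 =
      ∑ o, V (Sum.inl (Sum.inr o)) * MvPolynomial.eval y (MvPolynomial.pderiv o p) :=
  der_ren' _ _ _

/-- derivative of a quadratic form along a line -/
theorem der_qf (y : Option ν → K) (k h : μ → K) (V : VT μ ν → K)
    (M : Matrix μ μ (MvPolynomial (Option ν) K)) :
    (Polynomial.derivative (ln (ppt y k h) V (qf M))).eval 0 =
      (fun a => V (Sum.inr (Sum.inl a))) ⬝ᵥ (ev y M *ᵥ h) +
        k ⬝ᵥ (ev y M *ᵥ (fun b => V (Sum.inr (Sum.inr b)))) +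
        k ⬝ᵥ ((∑ j, V (Sum.inl (Sum.inr j)) • dv y j M) *ᵥ h) := by
  unfold qf
  simp only [gder_sum, gder_mul, gder_X, der_ren2]
  simp only [eval_ren', MvPolynomial.eval_X, map_mul, ppt,
    dotProduct, mulVec, Finset.mul_sum, ← Finset.sum_add_distrib, dv, ev, map_apply,
    Matrix.sum_apply, Matrix.smul_apply, smul_eq_mul]
  exact Finset.sum_congr rfl fun a _ => Finset.sum_congr rfl fun b _ => by ring

/-- surjectivity of the Jacobian of the system at a nondegenerate critical point -/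
theorem psys_surj [CharZero K] {A B : Matrix μ μ (MvPolynomial (Option ν) K)}
    {P : MvPolynomial (Option ν) K} (H : PD A B P)
    (y : Option ν → K) (k h w1 w2 : μ → K) (c : K)
    (hH : ∀ u : ν → K, (∀ v, ∑ j, MvPolynomial.eval y
      (MvPolynomial.pderiv (some j) (MvPolynomial.pderiv (some v) P)) * u j = 0) → u = 0)
    (hKB : KB (ev y A) k h) (hB : ev y B = c • (vecMulVec h k - vecMulVec k h))
    (hL : ∀ v, k ⬝ᵥ (dv y (some v) A *ᵥ h) = 0) (hT : k ⬝ᵥ (dv y none A *ᵥ h) = 1)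
    (hw1 : w1 ⬝ᵥ k = 1) (hw2 : w2 ⬝ᵥ k = 0) (hw3 : w1 ⬝ᵥ h = 0) (hw4 : w2 ⬝ᵥ h ≠ 0) :
    Function.Surjective (jac (psys A w1 w2) (ppt y k h)) := by
  refine jac_surj_of_inj _ _ ?_ ?_
  · simp only [Fintype.card_sum, Fintype.card_option]
    ring
  intro V hV
  have hV' : ∀ i, (Polynomial.derivative (ln (ppt y k h) V (psys A w1 w2 i))).eval 0 = 0 := by
    intro i
    rw [← jac_eq_ln]
    exact congrFun hV i
  have key := plin_zero H y k h w1 w2 c hH hKB hB hL hT hw1 hw2 hw3 hw4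
    (fun o => V (Sum.inl (Sum.inr o))) (V (Sum.inl (Sum.inl 0))) (V (Sum.inl (Sum.inl 1)))
    (V (Sum.inl (Sum.inl 2)))
    (fun b => V (Sum.inr (Sum.inl b))) (fun a => V (Sum.inr (Sum.inr a))) ?_ ?_ ?_ ?_ ?_ ?_ ?_
  · obtain ⟨z1, z2, z3, z4, z5, z6⟩ := key
    funext i
    rcases i with (i | o) | (b | a)
    · fin_cases i
      · exact z2
      · exact z3
      · exact z4
    · exact congrFun z1 o
    · exact congrFun z5 b
    · exact congrFun z6 a
  · ext a
    have := hV' (Sum.inl (Sum.inl a))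
    simp only [psys, gder_sub, gder_sum, gder_mul, der_ren2, gder_X, gder_C, eval_ren',
      MvPolynomial.eval_X, MvPolynomial.eval_C, map_add,
      Polynomial.eval_add, mul_zero, add_zero,
      Finset.sum_add_distrib] at this
    simp only [Pi.add_apply, mulVec, dotProduct, Pi.smul_apply, Matrix.sum_apply, Matrix.smul_apply,
      smul_eq_mul, dv, map_apply]
    exact sub_eq_zero.1 this
  · ext a
    have := hV' (Sum.inl (Sum.inr a))
    simp only [psys, gder_sub, gder_sum, gder_mul, der_ren2, gder_X, gder_C, eval_ren',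
      MvPolynomial.eval_X, MvPolynomial.eval_C, mul_zero, add_zero,
      Finset.sum_add_distrib] at this
    simp only [Pi.add_apply, mulVec, dotProduct, Pi.smul_apply, Matrix.sum_apply, Matrix.smul_apply,
      smul_eq_mul, dv, map_apply]
    exact sub_eq_zero.1 this
  · intro v
    have := hV' (Sum.inr (Sum.inr (some v)))
    simp only [psys, gder_sub] at this
    rw [der_qf, gder_C, sub_zero] at this
    exact this
  · have := hV' (Sum.inr (Sum.inr none))
    simp only [psys, gder_sub] at this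
    rw [der_qf, gder_C, sub_zero] at this
    exact this
  · have h0 : (Polynomial.derivative (ln (ppt y k h) V ((∑ b, MvPolynomial.C (w1 b) * XK b) -
        MvPolynomial.C 1))).eval 0 = 0 := hV' (Sum.inr (Sum.inl 0))
    simp only [gder_sub, gder_sum, gder_mul, gder_X, gder_C, MvPolynomial.eval_C, zero_mul, zero_add,
      sub_zero] at h0
    exact h0
  · have h0 : (Polynomial.derivative (ln (ppt y k h) V
        (∑ b, MvPolynomial.C (w2 b) * XK b))).eval 0 = 0 := hV' (Sum.inr (Sum.inl 1))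
    simp only [gder_sum, gder_mul, gder_X, gder_C, MvPolynomial.eval_C, zero_mul, zero_add] at h0
    exact h0
  · have h0 : (Polynomial.derivative (ln (ppt y k h) V
        (∑ b, MvPolynomial.C (w1 b) * XH b))).eval 0 = 0 := hV' (Sum.inr (Sum.inl 2))
    simp only [gder_sum, gder_mul, gder_X, gder_C, MvPolynomial.eval_C, zero_mul, zero_add] at h0
    exact h0

/-- the number of nondegenerate critical points of `y none` on `P = 0` -/
theorem pcrit_card [CharZero K] {e : ℕ} {A B : Matrix μ μ (MvPolynomial (Option ν) K)}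
    {P : MvPolynomial (Option ν) K} (H : PD A B P)
    (hA : ∀ a b, (A a b).totalDegree ≤ e + 1)
    {ι : Type*} [Fintype ι] (y : ι → Option ν → K) (hy : Function.Injective y)
    (h0 : ∀ p, MvPolynomial.eval (y p) P = 0)
    (hg : ∀ p v, MvPolynomial.eval (y p) (MvPolynomial.pderiv (some v) P) = 0)
    (hn : ∀ p, MvPolynomial.eval (y p) (MvPolynomial.pderiv none P) ≠ 0)
    (hH : ∀ p, ∀ u : ν → K, (∀ v, ∑ j, MvPolynomial.eval (y p)
      (MvPolynomial.pderiv (some j) (MvPolynomial.pderiv (some v) P)) * u j = 0) → u = 0)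
    (α β : ℕ) :
    Fintype.card ι * (α ^ (2 * Fintype.card μ) * β ^ (Fintype.card ν + 4)) ≤
      ((e + 1) * α + e * β) ^ (Fintype.card ν + 4) * (α + 2 * β) ^ (2 * Fintype.card μ) := by
  classical
  set c : ι → K := fun p => MvPolynomial.eval (y p) (MvPolynomial.pderiv none P) with hc
  have skA : ∀ p, (ev (y p) A).transpose = -ev (y p) A := fun p => ev_skew H.skA _
  have hABz : ∀ p, ev (y p) A * ev (y p) B = 0 := by
    intro p
    rw [← ev_mul, H.AB, ev_smul_one, h0, zero_smul]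
  have hs : ∀ p, ∃ k h : μ → K, KB (ev (y p) A) k h := by
    intro p
    have h1 : ev (y p) B * dv (y p) none A + dv (y p) none B * ev (y p) A =
        c p • (1 : Matrix μ μ K) := by
      rw [add_comm, ← dv_mul, H.BA, dv_smul_one]
    exact exists_KB (hn p) (hABz p) h1 (H.tr1 _ _)
  choose k0 h00 hKB0 using hs
  obtain ⟨w1, hw1⟩ := exists_generic k0 fun p => (hKB0 p).ne
  obtain ⟨w2, hw2⟩ := exists_generic
    (fun p => h00 p + (-(w1 ⬝ᵥ h00 p) / (w1 ⬝ᵥ k0 p)) • k0 p)
    fun p => ((hKB0 p).swap.add _).ne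
  have hs2 : ∀ p, ∃ k h : μ → K, KB (ev (y p) A) k h ∧ w1 ⬝ᵥ k = 1 ∧ w2 ⬝ᵥ k = 0 ∧
      w1 ⬝ᵥ h = 0 ∧ w2 ⬝ᵥ h ≠ 0 ∧ k ⬝ᵥ (dv (y p) none A *ᵥ h) = 1 ∧
      ev (y p) B = c p • (vecMulVec h k - vecMulVec k h) := by
    intro p
    obtain ⟨k, h, hKB, a1, a2, a3, a4⟩ := (hKB0 p).normalise w1 w2 (hw1 p) (hw2 p)
    obtain ⟨g, hgB⟩ := hKB.skew_form (skA p) (ev_skew H.skB (y p)) (hABz p)
    have skE := dv_skew H.skA (y p) none
    have htr := H.tr1 (y p) none
    rw [hgB, Matrix.smul_mul, trace_smul, Matrix.sub_mul, trace_sub, tr_vv, tr_vv,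
      skew_dot skE h k, smul_eq_mul] at htr
    have h5 : g * (k ⬝ᵥ (dv (y p) none A *ᵥ h)) = -c p := by
      have h6 : 2 * (g * (k ⬝ᵥ (dv (y p) none A *ᵥ h))) = 2 * -c p := by
        rw [hc]
        linear_combination -htr
      exact mul_left_cancel₀ two_ne_zero h6
    set t := k ⬝ᵥ (dv (y p) none A *ᵥ h) with ht
    have ht0 : t ≠ 0 := by
      intro h6
      rw [h6, mul_zero] at h5
      exact hn p (neg_eq_zero.1 h5.symm)
    refine ⟨k, t⁻¹ • h, (hKB.swap.smul (inv_ne_zero ht0)).swap, a1, a2, ?_, ?_, ?_, ?_⟩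
    · rw [dotProduct_smul, a3, smul_zero]
    · rw [dotProduct_smul, smul_eq_mul]
      exact mul_ne_zero (inv_ne_zero ht0) a4
    · rw [mulVec_smul, dotProduct_smul, ← ht, smul_eq_mul, inv_mul_cancel₀ ht0]
    · rw [hgB]
      have h7 : g = -c p * t⁻¹ := by
        rw [← h5, mul_assoc, mul_inv_cancel₀ ht0, mul_one]
      rw [h7]
      ext i j
      simp only [Matrix.smul_apply, Matrix.sub_apply, vecMulVec_apply, smul_eq_mul, Pi.smul_apply]
      ring
  choose k h hKB a1 a2 a3 a4 hT hB using hs2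
  have hL : ∀ p v, k p ⬝ᵥ (dv (y p) (some v) A *ᵥ h p) = 0 := by
    intro p v
    have htr := H.tr1 (y p) (some v)
    rw [hg, mul_zero, hB, Matrix.smul_mul, trace_smul, Matrix.sub_mul, trace_sub, tr_vv, tr_vv,
      skew_dot (dv_skew H.skA (y p) (some v)) (h p) (k p), smul_eq_mul] at htr
    have h6 : c p * (2 * (k p ⬝ᵥ (dv (y p) (some v) A *ᵥ h p))) = 0 := by
      linear_combination htr
    exact (mul_eq_zero.1 ((mul_eq_zero.1 h6).resolve_left (hn p))).resolve_left two_ne_zero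
  have hb := Pool.CD.bez e (psys A w1 w2) (fun p => ppt (y p) (k p) (h p)) ?_
    (fun p i => eval_psys A w1 w2 (y p) (k p) (h p) (hKB p).1 (hKB p).2.1 (hL p) (hT p) (a1 p)
      (a2 p) (a3 p) i)
    (fun p => psys_surj H (y p) (k p) (h p) w1 w2 (c p) (hH p) (hKB p) (hB p)
      (hL p) (hT p) (a1 p) (a2 p) (a3 p) (a4 p))
    (psys_mem1 A hA w1 w2) (psys_mem2 A hA w1 w2) ?_ α β
  · simp only [Fintype.card_sum, Fintype.card_option, Fintype.card_fin] at hb
    have e2 : Fintype.card μ + Fintype.card μ = 2 * Fintype.card μ := by ring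
    have e3 : 3 + (Fintype.card ν + 1) = Fintype.card ν + 4 := by ring
    rw [e2, e3] at hb
    have hpos : 0 < (Fintype.card ν + 4).factorial * (2 * Fintype.card μ).factorial := by positivity
    refine le_of_mul_le_mul_right ?_ hpos
    refine hb.trans (le_of_eq ?_)
    ring
  · intro p q hpq
    apply hy
    funext o
    exact congrFun hpq (Sum.inl (Sum.inr o))
  · simp only [Fintype.card_sum, Fintype.card_option]
    ring

end Pool.CD
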