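import Pool.Agent.Helper97.CD.PSys
import Pool.Agent.Helper97.CD.Class
import Pool.Agent.PF.Grid
import Pool.Agent.SDD.Asm

/-!
# The class of Pfaffians of size `2 m` with entries of degree at most `δ` (MP_381749_lc)
-/

set_option autoImplicit false

namespace Pool.CD

open Finset MvPolynomial Pool.Agent.Helper24.SQ Pool.PF

/-- numerical consequence of the counting inequality -/
theorem num_bound' (S m M e : ℕ) (hm : 0 < m) (hM : 0 < M) (h : ∀ α β : ℕ,
    S * (α ^ (2 * m) * β ^ M) ≤ ((e + 1) * α + e * β) ^ M * (α + 2 * β) ^ (2 * m)) :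
    (S : ℝ) ≤ (Real.exp 1 * (4 * (e + 1) * m / M + e)) ^ M := by
  have h := h (4 * m) M
  have h' : (S : ℝ) * ((4 * m : ℝ) ^ (2 * m) * (M : ℝ) ^ M) ≤
      (((e : ℝ) + 1) * (4 * m) + e * M) ^ M * (4 * m + 2 * M : ℝ) ^ (2 * m) := by
    exact_mod_cast h
  have hm' : (0 : ℝ) < m := by exact_mod_cast hm
  have hMp : (0 : ℝ) < M := by exact_mod_cast hM
  have e1 : (4 * m + 2 * M : ℝ) ^ (2 * m) = (4 * m : ℝ) ^ (2 * m) * (1 + M / (2 * m : ℝ)) ^ (2 * m) := by
    rw [← mul_pow]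
    congr 1
    field_simp
    ring
  have e2 : (1 + M / (2 * m : ℝ)) ^ (2 * m) ≤ Real.exp 1 ^ M := by
    have h3 : (1 + M / (2 * m : ℝ)) ≤ Real.exp (M / (2 * m : ℝ)) := by
      have := Real.add_one_le_exp (M / (2 * m : ℝ))
      linarith
    calc (1 + M / (2 * m : ℝ)) ^ (2 * m) ≤ (Real.exp (M / (2 * m : ℝ))) ^ (2 * m) := by
          gcongr
      _ = Real.exp M := by
          rw [← Real.exp_nat_mul]
          congr 1
          push_cast
          field_simp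
      _ = Real.exp 1 ^ M := by
          rw [← Real.exp_nat_mul, mul_one]
  rw [e1] at h'
  have hpos : (0 : ℝ) < (4 * m : ℝ) ^ (2 * m) := by positivity
  set G : ℝ := ((e : ℝ) + 1) * (4 * m) + e * M with hG
  have hG0 : 0 ≤ G := by positivity
  have h4 : (S : ℝ) * (M : ℝ) ^ M ≤ G ^ M * (1 + M / (2 * m : ℝ)) ^ (2 * m) := by
    refine le_of_mul_le_mul_left ?_ hpos
    calc (4 * m : ℝ) ^ (2 * m) * ((S : ℝ) * (M : ℝ) ^ M)
        = (S : ℝ) * ((4 * m : ℝ) ^ (2 * m) * (M : ℝ) ^ M) := by ring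
      _ ≤ G ^ M * ((4 * m : ℝ) ^ (2 * m) * (1 + M / (2 * m : ℝ)) ^ (2 * m)) := h'
      _ = _ := by ring
  have e3 : Real.exp 1 * (4 * (e + 1) * m / (M : ℝ) + e) = G * Real.exp 1 / M := by
    rw [hG]
    field_simp
  rw [e3, div_pow, le_div_iff₀ (by positivity)]
  calc (S : ℝ) * (M : ℝ) ^ M ≤ G ^ M * (1 + M / (2 * m : ℝ)) ^ (2 * m) := h4
    _ ≤ G ^ M * Real.exp 1 ^ M := by gcongr
    _ = (G * Real.exp 1) ^ M := by rw [← mul_pow]

/-- `P` is the Pfaffian of a matrix of size `2 m` with entries of degree at most `δ` -/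
def PfRep (m δ : ℕ) {σ : Type} (P : MvPolynomial σ ℂ) : Prop :=
  ∃ A : Matrix (Fin (2 * m)) (Fin (2 * m)) (MvPolynomial σ ℂ),
    (∀ i j, (A i j).totalDegree ≤ δ) ∧ P = pf m A

theorem PfRep.alt {m δ : ℕ} {σ : Type} {P : MvPolynomial σ ℂ} (h : PfRep m δ P) :
    ∃ A : Matrix (Fin (2 * m)) (Fin (2 * m)) (MvPolynomial σ ℂ),
      (∀ i j, (A i j).totalDegree ≤ δ) ∧ IsAlt A ∧ P = pf m A := by
  obtain ⟨A, hA, hP⟩ := h
  refine ⟨Matrix.of fun i j => if i < j then A i j else if j < i then -A j i else 0, ?_,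
    ⟨fun i j => ?_, fun i => ?_⟩, ?_⟩
  · intro i j
    rw [Matrix.of_apply]
    split_ifs
    · exact hA _ _
    · rw [totalDegree_neg]
      exact hA _ _
    · simp
  · simp only [Matrix.of_apply]
    rcases lt_trichotomy i j with h | h | h
    · rw [if_pos h, if_neg h.not_gt, if_pos h, neg_neg]
    · subst h
      simp
    · rw [if_neg h.not_gt, if_pos h, if_pos h]
  · simp
  · rw [hP]
    apply pf_congr
    intro i j hij
    rw [Matrix.of_apply, if_pos hij]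

/-- the class of Pfaffians -/
def PfCls (m δ : ℕ) : Cls where
  mem := fun {_} P => PfRep m δ P
  deg := m * δ
  subst := by
    rintro σ τ P f ⟨A, hA, rfl⟩ hf
    refine ⟨A.map (aeval f), fun i j => ?_, ?_⟩
    · rw [Matrix.map_apply]
      have h1 := Pool.SDD.totalDegree_aeval_le_mul f 1 hf (A i j)
      rw [mul_one] at h1
      exact h1.trans (hA i j)
    · exact map_pf ((aeval f : MvPolynomial σ ℂ →ₐ[ℂ] MvPolynomial τ ℂ) :
        MvPolynomial σ ℂ →+* MvPolynomial τ ℂ) m A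
  le := by
    rintro σ P ⟨A, hA, rfl⟩
    exact totalDegree_pf_le δ m A hA

/-- number of nondegenerate critical points for Pfaffians -/
theorem pf_crit_bound {ι : Type} [Fintype ι] (m e : ℕ) (P : MvPolynomial (Option ι) ℂ)
    (hP : PfRep m (e + 1) P) (Z : Finset (Option ι → ℂ)) (hZ : ∀ z ∈ Z, CritPt P z) :
    (Z.card : ℝ) ≤ (Real.exp 1 * (4 * (e + 1) * (2 * m : ℕ) / (Fintype.card ι + 4 : ℕ) + e)) ^
      (Fintype.card ι + 4) := by
  classical
  rcases Z.eq_empty_or_nonempty with rfl | ⟨z₀, hz₀⟩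
  · rw [card_empty, Nat.cast_zero]
    positivity
  obtain ⟨A, hA, halt, hPA⟩ := hP.alt
  have hP0 : P ≠ 0 := by
    rintro rfl
    exact (hZ z₀ hz₀).2.2.1 (by simp)
  rcases m with _ | k
  · exfalso
    have h1 := (hZ z₀ hz₀).1
    rw [hPA, pf_zero, map_one] at h1
    exact one_ne_zero h1
  obtain ⟨B, hAB⟩ := exists_padj k A halt
  rw [← hPA] at hAB
  have hdet : A.det = P ^ 2 := by rw [hPA, pf_sq halt]
  have skA : A.transpose = -A := by
    ext1 i j
    rw [Matrix.transpose_apply, Matrix.neg_apply]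
    exact halt.1 j i
  have H : PD A B P := ⟨skA, padj_skew hAB hdet hP0 skA, hAB, padj_mul hAB hdet hP0,
    fun v => padj_deriv (pderiv v) hAB hdet hP0⟩
  have hb := pcrit_card H hA (ι := Z) (fun z => (z : Option ι → ℂ))
    Subtype.val_injective (fun z => (hZ z z.2).1) (fun z => (hZ z z.2).2.1)
    (fun z => (hZ z z.2).2.2.1) (fun z => (hZ z z.2).2.2.2)
  rw [Fintype.card_coe, Fintype.card_fin] at hb
  exact num_bound' Z.card (2 * (k + 1)) (Fintype.card ι + 4) e (by omega) (by omega) hb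

theorem BR.pf_pos {n m δ : ℕ} (h : BR (PfCls m δ) n) (hn : 1 ≤ n) : 1 ≤ m := by
  by_contra hm
  have hm0 : m = 0 := by omega
  subst hm0
  obtain ⟨P, ⟨A, hA, hPA⟩, hP⟩ := h 1 one_pos
  have h1 : P = 1 := hPA
  have h2 := hP 0
  have h3 : (permPoly n).coeff 0 = 0 := by
    have : Nonempty (Fin n) := ⟨⟨0, hn⟩⟩
    rw [← MvPolynomial.constantCoeff_eq]
    unfold permPoly Matrix.permanent
    rw [map_sum]
    refine Finset.sum_eq_zero fun π _ => ?_
    rw [map_prod]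
    refine Finset.prod_eq_zero (mem_univ (⟨0, hn⟩ : Fin n)) ?_
    rw [Matrix.of_apply, MvPolynomial.constantCoeff_X]
  rw [h1, h3] at h2
  simp at h2

/-- the counting inequality for Pfaffians -/
theorem pf_ineq {M n d m e : ℕ} (hM : 2 ≤ M) (hMd : M ^ 3 = 2 * d) (hd : 2 ≤ d)
    (hn : 702 * M ^ 3 ≤ n) (h : BR (PfCls m (e + 1)) n) :
    (d.factorial : ℝ) ^ (2 * (2 * d - 1)) ≤
      (Real.exp 1 * (4 * (e + 1) * (2 * m : ℕ) / ((2 * d - 1) * (2 * d) + 4 : ℕ) + e)) ^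
        ((2 * d - 1) * (2 * d) + 4) := by
  obtain ⟨ι, _, P, Z, hι, hP, hZc, hZ⟩ := many hM hMd hd hn h
  have h1 := pf_crit_bound m e P hP Z hZ
  rw [hι, hZc, Nat.cast_pow] at h1
  exact h1

end Pool.CD
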